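import Pool.Agent.Y119.J.Gen
import Pool.Agent.Y119.ML.Fam2
import Pool.Agent.Y119.ML.Ser2

/-!
# Hyperlogarithms: the holomorphic part of the fundamental matrix
-/

set_option autoImplicit false

open PowerSeries

namespace Pool.Agent.Q189.HL

open Pool.Agent.Y113 (ps ps_mul SDc SDp)
open Pool.Agent.Y119.ML (LL UU In geo geo_mul theta_In RR adm const_In theta_LL)

variable {r : ℕ} (α : Fin r → ℤ)

/-- the holomorphic part of the iterated integral of a word, with the length as fuel -/
noncomputable def hn : ℕ → List (Option (Fin r)) → ℚ⟦X⟧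
  | 0, _ => 1
  | _ + 1, [] => 1
  | n + 1, o :: u => In (UU α 0 o * hn n u - if (o :: u).getLast? = some none then hn n (o :: u).dropLast else 0)

/-- the holomorphic part of the iterated integral of a word -/
noncomputable def hu (u : List (Option (Fin r))) : ℚ⟦X⟧ := hn α u.length u

lemma hu_nil : hu α [] = 1 := rfl

lemma hu_cons (o : Option (Fin r)) (u : List (Option (Fin r))) :
    hu α (o :: u) = In (UU α 0 o * hu α u - if (o :: u).getLast? = some none then hu α (o :: u).dropLast else 0) := by
  unfold hu
  rw [List.length_cons, hn]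
  congr 2
  have h1 : (o :: u).dropLast.length = u.length := by simp
  rw [h1]

lemma geo_zero : geo 0 = 1 := by
  have := geo_mul 0
  simpa using this

lemma UU_none : UU α 0 none = 1 := by
  show geo ((0 : ℕ) : ℤ) = 1
  exact geo_zero

lemma const_UU (a : Fin r) : constantCoeff (UU α 0 (some a)) = 0 := by
  simp [UU]

lemma const_hu {u : List (Option (Fin r))} (h : u ≠ []) : constantCoeff (hu α u) = 0 := by
  cases u with
  | nil => exact absurd rfl h
  | cons o w =>
    rw [hu_cons]
    exact const_In _

lemma theta_hu (o : Option (Fin r)) (u : List (Option (Fin r))) : X * d⁄dX ℚ (hu α (o :: u)) =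
    UU α 0 o * hu α u - if (o :: u).getLast? = some none then hu α (o :: u).dropLast else 0 := by
  rw [hu_cons, theta_In]
  have h0 : constantCoeff (UU α 0 o * hu α u -
      if (o :: u).getLast? = some none then hu α (o :: u).dropLast else 0) = 0 := by
    rw [map_sub, map_mul]
    by_cases hu : u = []
    · subst hu
      rcases o with _ | a
      · rw [UU_none, if_pos (by simp)]
        simp [hu_nil]
      · rw [const_UU, if_neg (by simp)]
        simp
    · have h1 : (o :: u).dropLast ≠ [] := by
        cases u with
        | nil => exact absurd rfl hu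
        | cons o' u' => simp
      rw [const_hu α hu, mul_zero, zero_sub, neg_eq_zero]
      split_ifs
      · exact const_hu α h1
      · simp
  rw [h0]
  simp

/-- the entries of the holomorphic part -/
noncomputable def Hm (w v : List (Option (Fin r))) : ℚ⟦X⟧ :=
  if v <:+ w then hu α (w.take (w.length - v.length)) else 0

lemma Hm_append (u v : List (Option (Fin r))) : Hm α (u ++ v) v = hu α u := by
  unfold Hm
  rw [if_pos (List.suffix_append u v)]
  congr 1
  simp

lemma Hm_not {w v : List (Option (Fin r))} (h : ¬ v <:+ w) : Hm α w v = 0 := if_neg h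

lemma Hm_long {w v : List (Option (Fin r))} (h : w.length < v.length) : Hm α w v = 0 :=
  Hm_not α fun h1 => absurd h1.length_le (by omega)

/-- the differential equation -/
theorem theta_Hm (w v : List (Option (Fin r))) : X * d⁄dX ℚ (Hm α w v) + Hm α w (none :: v) =
    match w with
    | [] => 0
    | o :: w' => UU α 0 o * Hm α w' v := by
  cases w with
  | nil =>
    simp only
    rw [Hm_long α (by simp : ([] : List (Option (Fin r))).length < (none :: v).length), add_zero]
    by_cases hv : v = []
    · subst hv
      have : Hm α [] [] = 1 := Hm_append α [] []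
      rw [this]
      simp
    · rw [Hm_not α (fun h => hv (List.suffix_nil.1 h))]
      simp
  | cons o w' =>
    simp only
    by_cases hv : v <:+ w'
    · obtain ⟨u, rfl⟩ := hv
      have h1 : Hm α (o :: (u ++ v)) v = hu α (o :: u) := Hm_append α (o :: u) v
      rw [h1, theta_hu, Hm_append]
      by_cases hl : (o :: u).getLast? = some none
      · rw [if_pos hl]
        have h2 : o :: (u ++ v) = (o :: u).dropLast ++ (none :: v) := by
          have h3 := List.dropLast_append_getLast? none hl
          rw [← List.cons_append, ← h3]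
          simp
        rw [h2, Hm_append]
        ring
      · rw [if_neg hl, Hm_not, sub_zero, add_zero]
        rintro ⟨t, ht⟩
        apply hl
        have h3 : t ++ [none] = o :: u := by
          have h4 : (t ++ [none]) ++ v = (o :: u) ++ v := by simpa using ht
          exact List.append_cancel_right h4
        rw [← h3]
        simp
    · rw [Hm_not α hv, mul_zero]
      have h2 : ¬ (none :: v) <:+ o :: w' := by
        intro h
        rcases List.suffix_cons_iff.1 h with h | h
        · rw [List.cons.injEq] at h
          exact hv (h.2 ▸ List.suffix_rfl)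
        · exact hv ((List.suffix_cons none v).trans h)
      rw [Hm_not α h2, add_zero]
      by_cases h3 : v = o :: w'
      · subst h3
        have : Hm α (o :: w') (o :: w') = 1 := Hm_append α [] (o :: w')
        rw [this]
        simp
      · rw [Hm_not]
        · simp
        · intro h
          rcases List.suffix_cons_iff.1 h with h | h
          · exact h3 h
          · exact hv h

lemma ps_UU (o : Option (Fin r)) : ps (RR α 0 none) * UU α 0 o = ps (RR α 0 o) := by
  rcases o with _ | a
  · rw [UU_none, mul_one]
  · rw [RR, RR, ← Finset.mul_prod_erase Finset.univ _ (Finset.mem_univ a), ps_mul, ps_mul, Pool.Agent.Y119.ML.ps_X,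
      Pool.Agent.Y119.ML.ps_lin]
    have h4 := geo_mul (((0 : ℕ) : ℤ) + α a)
    show _ * (X * geo ((0 : ℕ) : ℤ) * geo (((0 : ℕ) : ℤ) + α a)) = _
    have h5 : geo ((0 : ℕ) : ℤ) = 1 := geo_zero
    rw [h5]
    set P := ps (∏ b ∈ Finset.univ.erase a, (1 - Polynomial.C (((0 : ℕ) : ℤ) + α b) * Polynomial.X))
    linear_combination (X * P) * h4

/-! ### size and denominators -/

lemma SDc_In {f : ℚ⟦X⟧} (h : SDc f) : SDc (In f) := by
  obtain ⟨n, hn⟩ := h
  refine ⟨8 + n, ?_⟩
  rw [pow_add]
  exact Pool.Agent.Y119.ML.SDp_In hn

lemma SDc_UU (o : Option (Fin r)) : SDc (UU α 0 o) := by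
  obtain ⟨E, hE⟩ := Pool.Agent.Y119.ML.SDE_UU α o
  have h := hE 0
  exact ⟨E, by simpa using h⟩

lemma SDc_zero : SDc (0 : ℚ⟦X⟧) := by simpa using SDc.int 0

lemma SDc_sub {f g : ℚ⟦X⟧} (hf : SDc f) (hg : SDc g) : SDc (f - g) := by
  rw [sub_eq_add_neg]
  have h1 : -g = ((-1 : ℤ) : ℚ⟦X⟧) * g := by simp
  rw [h1]
  exact hf.add ((SDc.int (-1)).mul hg)

lemma SDc_hn (n : ℕ) : ∀ u : List (Option (Fin r)), SDc (hn α n u) := by
  induction n with
  | zero =>
    intro u
    rw [hn]
    exact SDc.one
  | succ n ih =>
    intro u
    cases u with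
    | nil =>
      rw [hn]
      exact SDc.one
    | cons o u =>
      rw [hn]
      refine SDc_In (SDc_sub ((SDc_UU α o).mul (ih u)) ?_)
      split_ifs
      · exact ih _
      · exact SDc_zero

lemma SDc_Hm (w v : List (Option (Fin r))) : SDc (Hm α w v) := by
  unfold Hm
  split_ifs
  · exact SDc_hn α _ _
  · exact SDc_zero

end Pool.Agent.Q189.HL
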