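import Pool.Agent.Q189.HL.Cn2

/-!
# Hyperlogarithms: points of the fibres
-/

set_option autoImplicit false

open PowerSeries

namespace Pool.Agent.Q189.HL

open Pool.Agent.Y119.ML (LL UU In geo adm adm_tail adm_none const_LL theta_LL theta_In const_In WI)
open Pool.Agent.Y120.GH (cx Cw ou)

variable {r : ℕ} (α : Fin r → ℤ)

/-- evaluation -/
noncomputable def evq (z : ℂ) : Polynomial ℚ →+* ℂ := (Polynomial.aeval z : Polynomial ℚ →ₐ[ℚ] ℂ).toRingHom

/-- the bound for the letters -/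
noncomputable def Kr : ℝ := 1 + ∑ a, |((α a : ℤ) : ℝ)|

lemma one_le_Kr : 1 ≤ Kr α := by
  unfold Kr
  have : 0 ≤ ∑ a, |((α a : ℤ) : ℝ)| := Finset.sum_nonneg fun _ _ => abs_nonneg _
  linarith

lemma le_Kr (a : Fin r) : |((α a : ℤ) : ℝ)| ≤ Kr α := by
  unfold Kr
  have := Finset.single_le_sum (f := fun a => |((α a : ℤ) : ℝ)|) (fun _ _ => abs_nonneg _) (Finset.mem_univ a)
  linarith

lemma Cw_UU (o : Option (Fin r)) : cx (UU α 0 o) ∈ Cw (Kr α) := by
  have h1 := one_le_Kr α
  rcases o with _ | a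
  · rw [UU_none, map_one]
    exact Subring.one_mem _
  · show cx (X * geo ((0 : ℕ) : ℤ) * geo (((0 : ℕ) : ℤ) + α a)) ∈ _
    have h5 : geo ((0 : ℕ) : ℤ) = 1 := geo_zero
    have h6 : geo (((0 : ℕ) : ℤ) + α a) = geo (α a) := by simp
    rw [h5, h6, mul_one, map_mul]
    refine Subring.mul_mem _ ?_ ?_
    · have : cx (X : ℚ⟦X⟧) = X := by rw [cx, map_X]
      rw [this]
      exact Pool.Agent.Y120.GH.X_mem
    · refine Pool.Agent.Y120.GH.cx_mem (by linarith) fun m => ?_
      rw [geo, coeff_mk]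
      push_cast
      rw [abs_pow]
      exact (pow_le_pow_left₀ (abs_nonneg _) (le_Kr α a) m).trans (pow_le_pow_right₀ h1 (by omega))

lemma Cw_In {ρ : ℝ} {f : ℚ⟦X⟧} (hf : cx f ∈ Cw ρ) : cx (In f) ∈ Cw ρ := by
  intro s hs hsρ
  refine Summable.of_nonneg_of_le (fun m => by positivity) (fun m => ?_) (hf s hs hsρ)
  refine mul_le_mul_of_nonneg_right ?_ (by positivity)
  rw [Pool.Agent.Y120.GH.norm_coeff_cx, Pool.Agent.Y120.GH.norm_coeff_cx, In, coeff_mk]
  push_cast
  rw [abs_div]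
  rcases Nat.eq_zero_or_pos m with rfl | hm
  · simp
  · have : (1 : ℝ) ≤ |(m : ℝ)| := by
      rw [abs_of_nonneg (Nat.cast_nonneg _)]; exact_mod_cast hm
    exact div_le_self (abs_nonneg _) this

lemma Cw_LL (w : List (Option (Fin r))) : cx (LL α 0 w) ∈ Cw (Kr α) := by
  induction w with
  | nil =>
    show cx (1 : ℚ⟦X⟧) ∈ _
    rw [map_one]
    exact Subring.one_mem _
  | cons o w ih =>
    show cx (In (UU α 0 o * LL α 0 w)) ∈ _
    refine Cw_In ?_
    rw [map_mul]
    exact Subring.mul_mem _ (Cw_UU α o) ih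

lemma cx_smul (c : ℚ) (f : ℚ⟦X⟧) : cx (c • f) = C (c : ℂ) * cx f := by
  ext m
  rw [Pool.Agent.Y120.GH.coeff_cx, coeff_C_mul, Pool.Agent.Y120.GH.coeff_cx, map_smul, smul_eq_mul]
  push_cast
  rfl

lemma Cw_V {f : ℚ⟦X⟧} (hf : f ∈ VV α) : cx f ∈ Cw (Kr α) := by
  unfold VV at hf
  induction hf using Submodule.span_induction with
  | mem f hf =>
    obtain ⟨w, hw, rfl⟩ := hf
    exact Cw_LL α w
  | zero => rw [map_zero]; exact Subring.zero_mem _
  | add f g _ _ hf hg => rw [map_add]; exact Subring.add_mem _ hf hg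
  | smul c f _ hf =>
    rw [cx_smul]
    exact Subring.mul_mem _ (Pool.Agent.Y120.GH.C_mem _) hf

lemma ou_list {t : ℂ} (ht : Kr α < ‖t‖) (l : List (List (Option (Fin r)))) :
    cx ((l.map (LL α 0)).sum) ∈ Cw (Kr α) ∧ ou (cx ((l.map (LL α 0)).sum)) t = (l.map fun w => ou (cx (LL α 0 w)) t).sum := by
  have hK : 0 ≤ Kr α := by linarith [one_le_Kr α]
  induction l with
  | nil =>
    rw [List.map_nil, List.sum_nil, List.map_nil, List.sum_nil, map_zero]
    exact ⟨Subring.zero_mem _, Pool.Agent.Y120.GH.ou_zero t⟩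
  | cons w l ih =>
    rw [List.map_cons, List.sum_cons, List.map_cons, List.sum_cons, map_add]
    exact ⟨Subring.add_mem _ (Cw_LL α w) ih.1, by
      rw [Pool.Agent.Y120.GH.ou_add hK (Cw_LL α w) ih.1 ht, ih.2]⟩

section
variable (hα : Function.Injective α) (h0 : ∀ a, α a ≠ 0)

/-- the specialisation of the coefficients at `x` and of the hyperlogarithms at `1 / t` -/
noncomputable def chL (x t : ℂ) : (Aw r →₀ Polynomial ℚ) →+ ℂ :=
  Finsupp.liftAddHom fun w => (AddMonoidHom.mulRight (ou (cx (LL α 0 w.1)) t)).comp (evq x).toAddMonoidHom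

lemma chL_single (x t : ℂ) (w : Aw r) (p : Polynomial ℚ) :
    chL α x t (Finsupp.single w p) = evq x p * ou (cx (LL α 0 w.1)) t := by
  unfold chL
  rw [Finsupp.liftAddHom_apply_single]
  rfl

lemma chL_smul (x t : ℂ) (p : Polynomial ℚ) (c : Aw r →₀ Polynomial ℚ) : chL α x t (p • c) = evq x p * chL α x t c := by
  induction c using Finsupp.induction_linear with
  | zero => simp
  | add c d hc hd => rw [smul_add, map_add, map_add, hc, hd, mul_add]
  | single w q => rw [Finsupp.smul_single, chL_single, chL_single, smul_eq_mul, map_mul, mul_assoc]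

/-- the specialisation -/
noncomputable def ch (x t : ℂ) (a : Sa α) : ℂ := chL α x t ((eS α hα h0).symm a)

lemma ch_add (x t : ℂ) (a b : Sa α) : ch α hα h0 x t (a + b) = ch α hα h0 x t a + ch α hα h0 x t b := by
  unfold ch
  rw [map_add, map_add]

lemma ch_smul (x t : ℂ) (p : Polynomial ℚ) (a : Sa α) : ch α hα h0 x t (p • a) = evq x p * ch α hα h0 x t a := by
  unfold ch
  rw [map_smul, chL_smul]

lemma ch_zero (x t : ℂ) : ch α hα h0 x t 0 = 0 := by
  unfold ch
  rw [map_zero, map_zero]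

lemma ch_Lx (x t : ℂ) {w : List (Option (Fin r))} (hw : adm w) : ch α hα h0 x t (Lx hα h0 w) = ou (cx (LL α 0 w)) t := by
  unfold ch
  rw [Lx_eq hα h0 hw, LinearEquiv.symm_apply_apply, chL_single, map_one, one_mul]

lemma ch_list (x t : ℂ) (l : List (List (Option (Fin r)))) (h : ∀ w ∈ l, adm w) :
    ch α hα h0 x t ((l.map (Lx hα h0)).sum) = (l.map fun w => ou (cx (LL α 0 w)) t).sum := by
  induction l with
  | nil => simpa using ch_zero α hα h0 x t
  | cons w l ih =>
    rw [List.map_cons, List.sum_cons, List.map_cons, List.sum_cons, ch_add,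
      ih fun w' hw' => h w' (List.mem_cons_of_mem _ hw'), ch_Lx α hα h0 x t (h w List.mem_cons_self)]

lemma ch_mul (x : ℂ) {t : ℂ} (ht : Kr α < ‖t‖) (a b : Sa α) :
    ch α hα h0 x t (a * b) = ch α hα h0 x t a * ch α hα h0 x t b := by
  have hK : 0 ≤ Kr α := by linarith [one_le_Kr α]
  obtain ⟨c, rfl⟩ := (eS α hα h0).surjective a
  obtain ⟨d, rfl⟩ := (eS α hα h0).surjective b
  induction c using Finsupp.induction_linear with
  | zero => rw [map_zero, zero_mul, ch_zero, zero_mul]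
  | add c c' h h' => rw [map_add, add_mul, ch_add, ch_add, h, h', add_mul]
  | single u p =>
    induction d using Finsupp.induction_linear with
    | zero => rw [map_zero, mul_zero, ch_zero, mul_zero]
    | add d d' h h' => rw [map_add, mul_add, ch_add, ch_add, h, h', mul_add]
    | single v q =>
      rw [Lx_single hα h0, Lx_single hα h0, smul_mul_smul_comm, ch_smul, ch_smul, ch_smul, Lx_mul hα h0 u.2 v.2,
        ch_list α hα h0 x t _ (adm_sh _ u.1 v.1 rfl u.2 v.2), ← (ou_list α ht _).2, ← LL_mul α _ u.1 v.1 rfl u.2 v.2,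
        map_mul, map_mul, Pool.Agent.Y120.GH.ou_mul hK (Cw_LL α _) (Cw_LL α _) ht, ch_Lx α hα h0 x t u.2,
        ch_Lx α hα h0 x t v.2]
      ring

lemma ch_V (x : ℂ) {t : ℂ} (ht : Kr α < ‖t‖) {f : ℚ⟦X⟧} (hf : f ∈ VV α) :
    ch α hα h0 x t ⟨f, V_le α hf⟩ = ou (cx f) t := by
  have hK : 0 ≤ Kr α := by linarith [one_le_Kr α]
  have key : ∀ f (hf : f ∈ VV α), ∀ a : Sa α, (a : ℚ⟦X⟧) = f → ch α hα h0 x t a = ou (cx f) t := by
    intro f hf
    unfold VV at hf
    induction hf using Submodule.span_induction with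
    | mem f hf =>
      obtain ⟨w, hw, rfl⟩ := hf
      intro a ha
      have : a = Lx hα h0 w := Subtype.ext (by rw [ha, coe_Lx hα h0 hw])
      rw [this, ch_Lx α hα h0 x t hw]
    | zero =>
      intro a ha
      have : a = 0 := Subtype.ext ha
      rw [this, ch_zero, map_zero, Pool.Agent.Y120.GH.ou_zero]
    | add f g hf' hg' hf hg =>
      intro a ha
      have : a = ⟨f, V_le α hf'⟩ + ⟨g, V_le α hg'⟩ := Subtype.ext ha
      rw [this, ch_add, hf _ rfl, hg _ rfl, map_add, Pool.Agent.Y120.GH.ou_add hK (Cw_V α hf') (Cw_V α hg') ht]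
    | smul c f hf' hf =>
      intro a ha
      have : a = (Polynomial.C c) • ⟨f, V_le α hf'⟩ := by
        refine Subtype.ext ?_
        rw [ha]
        show c • f = (Polynomial.C c) • f
        rw [Pool.Agent.Y141.GF.smul_eq', Polynomial.coe_C]
        ext m
        simp
      rw [this, ch_smul, hf _ rfl, cx_smul, Pool.Agent.Y120.GH.ou_mul hK (Pool.Agent.Y120.GH.C_mem _) (Cw_V α hf') ht,
        Pool.Agent.Y120.GH.ou_C]
      congr 1
      unfold evq
      simp
  exact key f hf _ rfl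

include hα h0 in
/-- **the values at any point lie in every fibre** -/
theorem fib_of {m : ℕ} {h : Fin m → ℚ⟦X⟧} (hh : ∀ i, h i ∈ VV α) (x : ℂ) {t : ℂ} (ht : Kr α < ‖t‖) :
    (fun i => ou (cx (h i)) t) ∈ Pool.Agent.Y916.Af.Vc h x := by
  intro R hR
  have key : ∀ R : MvPolynomial (Fin m) (Polynomial ℚ), ∀ a : Sa α, (a : ℚ⟦X⟧) = MvPolynomial.aeval h R →
      ch α hα h0 x t a = MvPolynomial.eval₂ (evq x) (fun i => ou (cx (h i)) t) R := by
    intro R
    induction R using MvPolynomial.induction_on with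
    | C p =>
      intro a ha
      have : a = p • Lx hα h0 [] := by
        refine Subtype.ext ?_
        rw [ha, MvPolynomial.aeval_C, Lx_nil]
        show _ = p • (1 : ℚ⟦X⟧)
        rw [Algebra.algebraMap_eq_smul_one]
      rw [this, ch_smul, ch_Lx α hα h0 x t nil_adm, MvPolynomial.eval₂_C]
      have h1 : cx (LL α 0 ([] : List (Option (Fin r)))) = 1 := map_one _
      rw [h1, Pool.Agent.Y120.GH.ou_one, mul_one]
    | add p q hp hq =>
      intro a ha
      have : a = ⟨_, aeval_Sa α (fun i => V_le α (hh i)) p⟩ + ⟨_, aeval_Sa α (fun i => V_le α (hh i)) q⟩ := by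
        refine Subtype.ext ?_
        rw [ha, map_add]
        rfl
      rw [this, ch_add, hp _ rfl, hq _ rfl, MvPolynomial.eval₂_add]
    | mul_X p j hp =>
      intro a ha
      have : a = ⟨_, aeval_Sa α (fun i => V_le α (hh i)) p⟩ * ⟨_, V_le α (hh j)⟩ := by
        refine Subtype.ext ?_
        rw [ha, map_mul, MvPolynomial.aeval_X]
        rfl
      rw [this, ch_mul α hα h0 x ht, hp _ rfl, ch_V α hα h0 x ht (hh j), MvPolynomial.eval₂_mul, MvPolynomial.eval₂_X]
  have h1 := key R 0 (by rw [hR]; rfl)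
  rw [ch_zero] at h1
  exact h1.symm

end

end Pool.Agent.Q189.HL
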