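import Pool.Agent.Q189.HL.Der
import Pool.Agent.Q189.MF.Conv

/-!
# Families of hyperlogarithms are connected
-/

set_option autoImplicit false

open PowerSeries

namespace Pool.Agent.Q189.HL

open Pool.Agent.Y119.ML (LL UU In geo adm adm_tail adm_none const_LL theta_LL theta_In const_In WI)

variable {r : ℕ} {α : Fin r → ℤ}

section
variable (hα : Function.Injective α) (h0 : ∀ a, α a ≠ 0)

/-- the derivative of a homogeneous monomial -/
lemma der_mon {A : Type} [CommRing A] [Algebra (Polynomial ℚ) A] (D : Derivation (Polynomial ℚ) A A) (a b : A) {m i : ℕ}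
    (hi : i ≤ m) : b * D (a ^ i * b ^ (m - i)) =
      ((i : A) * a ^ (i - 1) * b ^ (m - i)) * (b * D a - a * D b) + (m : A) * (a ^ i * b ^ (m - i)) * D b := by
  rw [Derivation.leibniz, Derivation.leibniz_pow, Derivation.leibniz_pow]
  simp only [smul_eq_mul, nsmul_eq_mul]
  obtain ⟨j, rfl⟩ : ∃ j, m = i + j := ⟨m - i, by omega⟩
  have e1 : i + j - i = j := by omega
  rw [e1]
  have h1 : (i : A) * a ^ (i - 1) * a = (i : A) * a ^ i := by
    rcases i with _ | i
    · simp
    · rw [mul_assoc, ← pow_succ]; simp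
  have h2 : (j : A) * b ^ (j - 1) * b = (j : A) * b ^ j := by
    rcases j with _ | j
    · simp
    · rw [mul_assoc, ← pow_succ]; simp
  push_cast
  linear_combination (a ^ i * D b) * h2 + (b ^ j * D b) * h1

/-- the algebra in the field of fractions -/
noncomputable def psi : Sa α →ₐ[Polynomial ℚ] FractionRing ℚ⟦X⟧ :=
  (IsScalarTower.toAlgHom (Polynomial ℚ) ℚ⟦X⟧ (FractionRing ℚ⟦X⟧)).comp (Sa α).val

lemma psi_apply (a : Sa α) : psi a = algebraMap ℚ⟦X⟧ (FractionRing ℚ⟦X⟧) a := rfl

lemma psi_inj : Function.Injective (psi (α := α)) := by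
  intro a b hab
  exact Subtype.ext (IsFractionRing.injective ℚ⟦X⟧ (FractionRing ℚ⟦X⟧) hab)

include hα h0 in
theorem conn_mem {a b : Sa α} (hb : b ≠ 0) (halg : IsAlgebraic (Polynomial ℚ) (psi a / psi b)) :
    ∃ u v : Polynomial ℚ, v ≠ 0 ∧ v • a = u • b := by
  classical
  have hb0 : psi b ≠ 0 := fun h => hb (psi_inj (by rw [h, map_zero]))
  set ξ := psi a / psi b with hξ
  -- a relation of minimal degree
  have hex : ∃ m : ℕ, ∃ P : Polynomial (Polynomial ℚ), P ≠ 0 ∧ Polynomial.aeval ξ P = 0 ∧ P.natDegree = m := by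
    obtain ⟨P, hP, hP'⟩ := halg
    exact ⟨_, P, hP, hP', rfl⟩
  obtain ⟨P, hP0, hP, hPm⟩ := Nat.find_spec hex
  have hmin : ∀ Q : Polynomial (Polynomial ℚ), Q ≠ 0 → Q.natDegree < P.natDegree → Polynomial.aeval ξ Q ≠ 0 := by
    intro Q hQ hQd hQ0
    rw [hPm] at hQd
    exact Nat.find_min hex hQd ⟨Q, hQ, hQ0, rfl⟩
  clear hPm
  set m := P.natDegree with hm
  have hm1 : 1 ≤ m := by
    by_contra hcon
    have h1 : P = Polynomial.C (P.coeff 0) := Polynomial.eq_C_of_natDegree_eq_zero (by omega)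
    rw [h1, Polynomial.aeval_C] at hP
    have h2 : P.coeff 0 = 0 := by
      refine Pool.Agent.Y118.UL.ps_inj (IsFractionRing.injective ℚ⟦X⟧ (FractionRing ℚ⟦X⟧) ?_)
      rw [← IsScalarTower.algebraMap_apply (Polynomial ℚ) ℚ⟦X⟧ (FractionRing ℚ⟦X⟧), hP, map_zero, map_zero]
    rw [h2, map_zero] at h1
    exact hP0 h1
  -- values
  have hval : ∀ i ≤ m, psi (a ^ i * b ^ (m - i)) = ξ ^ i * psi b ^ m := by
    intro i hi
    have h4 : psi b ^ m = psi b ^ i * psi b ^ (m - i) := by rw [← pow_add]; congr 1; omega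
    rw [map_mul, map_pow, map_pow, h4, hξ, div_pow]
    have h6 : psi a ^ i / psi b ^ i * psi b ^ i = psi a ^ i := div_mul_cancel₀ _ (pow_ne_zero _ hb0)
    linear_combination -(psi b ^ (m - i)) * h6
  have hF : ∑ i ∈ Finset.range (m + 1), P.coeff i • (a ^ i * b ^ (m - i)) = 0 := by
    apply psi_inj
    rw [map_sum, map_zero]
    have h1 : Polynomial.aeval ξ P * psi b ^ m = 0 := by rw [hP, zero_mul]
    rw [Polynomial.aeval_eq_sum_range, Finset.sum_mul] at h1
    rw [← h1]
    refine Finset.sum_congr rfl fun i hi => ?_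
    rw [Finset.mem_range] at hi
    rw [map_smul, hval i (by omega), smul_mul_assoc]
  set Q : Sa α := ∑ i ∈ Finset.range (m + 1), P.coeff i • ((i : Sa α) * a ^ (i - 1) * b ^ (m - i)) with hQ
  have hQ0 : Q ≠ 0 := by
    intro hcon
    have hd0 : Polynomial.derivative P ≠ 0 := by
      intro h1
      have h2 := Polynomial.derivative_eq_zero.1 h1
      omega
    have hd1 : (Polynomial.derivative P).natDegree < m := Polynomial.natDegree_derivative_lt (by omega)
    apply hmin _ hd0 hd1
    have h1 : psi Q = Polynomial.aeval ξ (Polynomial.derivative P) * psi b ^ (m - 1) := by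
      rw [hQ, map_sum, Polynomial.derivative_apply, Polynomial.sum_over_range _ (by simp), map_sum, Finset.sum_mul]
      refine Finset.sum_congr rfl fun i hi => ?_
      rw [Finset.mem_range, ← hm] at hi
      rw [map_smul, map_mul, map_mul, map_pow, map_pow, map_natCast, map_mul, map_pow, Polynomial.aeval_X,
        Polynomial.aeval_C, map_mul, map_natCast, Algebra.smul_def]
      rcases i with _ | i
      · simp
      · have h4 : psi b ^ (m - 1) = psi b ^ i * psi b ^ (m - (i + 1)) := by rw [← pow_add]; congr 1; omega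
        have h6 : psi a ^ i / psi b ^ i * psi b ^ i = psi a ^ i := div_mul_cancel₀ _ (pow_ne_zero _ hb0)
        have e1 : i + 1 - 1 = i := by omega
        rw [e1, h4, hξ, div_pow]
        linear_combination -(algebraMap (Polynomial ℚ) (FractionRing ℚ⟦X⟧) (P.coeff (i + 1)) * ((i + 1 : ℕ) : FractionRing ℚ⟦X⟧) *
          psi b ^ (m - (i + 1))) * h6
    rw [hcon, map_zero] at h1
    exact (mul_eq_zero.1 h1.symm).resolve_right (pow_ne_zero _ hb0)
  have hrel : ∀ o, b * Dd hα h0 o a = a * Dd hα h0 o b := by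
    intro o
    have h1 : ∑ i ∈ Finset.range (m + 1), (P.coeff i • ((i : Sa α) * a ^ (i - 1) * b ^ (m - i) *
        (b * Dd hα h0 o a - a * Dd hα h0 o b)) + P.coeff i • ((m : Sa α) * (a ^ i * b ^ (m - i)) * Dd hα h0 o b)) = 0 := by
      have h3 : b * Dd hα h0 o (∑ i ∈ Finset.range (m + 1), P.coeff i • (a ^ i * b ^ (m - i))) = 0 := by
        rw [hF, map_zero, mul_zero]
      rw [map_sum, Finset.mul_sum] at h3
      rw [← h3]
      refine Finset.sum_congr rfl fun i hi => ?_
      rw [Finset.mem_range] at hi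
      rw [← smul_add, ← der_mon (Dd hα h0 o) a b (show i ≤ m by omega), Derivation.map_smul, mul_smul_comm]
    rw [Finset.sum_add_distrib] at h1
    have h2 : ∑ i ∈ Finset.range (m + 1), P.coeff i • ((m : Sa α) * (a ^ i * b ^ (m - i)) * Dd hα h0 o b) = 0 := by
      have h3 : ∀ i ∈ Finset.range (m + 1), P.coeff i • ((m : Sa α) * (a ^ i * b ^ (m - i)) * Dd hα h0 o b) =
          (m : Sa α) * Dd hα h0 o b * (P.coeff i • (a ^ i * b ^ (m - i))) := by
        intro i _
        rw [mul_smul_comm]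
        congr 1
        ring
      rw [Finset.sum_congr rfl h3, ← Finset.mul_sum, hF, mul_zero]
    have h4 : ∑ i ∈ Finset.range (m + 1), P.coeff i • ((i : Sa α) * a ^ (i - 1) * b ^ (m - i) *
        (b * Dd hα h0 o a - a * Dd hα h0 o b)) = Q * (b * Dd hα h0 o a - a * Dd hα h0 o b) := by
      rw [hQ, Finset.sum_mul]
      exact Finset.sum_congr rfl fun i _ => by rw [smul_mul_assoc]
    rw [h2, add_zero, h4] at h1
    exact sub_eq_zero.1 ((mul_eq_zero.1 h1).resolve_left hQ0)
  exact ratio_const hα h0 (((eS α hα h0).symm b).support.sup fun w => w.1.length) a b hb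
    (fun w hw => Finset.le_sup (f := fun w : Aw r => w.1.length) (Finsupp.mem_support_iff.2 hw)) hrel

end

end Pool.Agent.Q189.HL
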