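import Pool.Agent.Q189.HL.Cn

/-!
# The family of the holomorphic parts of iterated integrals is connected
-/

set_option autoImplicit false

open PowerSeries

namespace Pool.Agent.Q189.HL

open Pool.Agent.Y119.ML (LL UU In geo adm adm_tail adm_none const_LL theta_LL theta_In const_In WI)

variable {r : ℕ} (α : Fin r → ℤ)

/-- rational linear combinations of hyperlogarithms -/
noncomputable def VV : Submodule ℚ ℚ⟦X⟧ := Submodule.span ℚ {f | ∃ w : List (Option (Fin r)), adm w ∧ f = LL α 0 w}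

lemma In_add (f g : ℚ⟦X⟧) : In (f + g) = In f + In g := by
  ext m
  simp [In, add_div]

lemma In_smul (c : ℚ) (f : ℚ⟦X⟧) : In (c • f) = c • In f := by
  ext m
  simp [In, mul_div_assoc]

lemma LL_V {w : List (Option (Fin r))} (h : adm w) : LL α 0 w ∈ VV α := Submodule.subset_span ⟨w, h, rfl⟩

lemma LL_V' (o : Option (Fin r)) {w : List (Option (Fin r))} (h : adm w) : LL α 0 (o :: w) ∈ VV α := by
  by_cases ho : adm (o :: w)
  · exact LL_V α ho
  have hw : w = [] := by
    by_contra hne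
    exact ho (adm_cons h hne)
  subst hw
  rcases o with _ | a
  · have : LL α 0 [none] = 0 := by
      show In (UU α 0 none * 1) = 0
      rw [UU_none, mul_one]
      ext m
      rw [In, coeff_mk, coeff_one]
      split_ifs with hm
      · rw [hm]; simp
      · simp
    rw [this]
    exact Submodule.zero_mem _
  · exact absurd (by unfold adm; simp) ho

lemma In_V (o : Option (Fin r)) {f : ℚ⟦X⟧} (hf : f ∈ VV α) : In (UU α 0 o * f) ∈ VV α := by
  unfold VV at hf
  induction hf using Submodule.span_induction with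
  | mem f hf =>
    obtain ⟨w, hw, rfl⟩ := hf
    exact LL_V' α o hw
  | zero =>
    have : In (UU α 0 o * 0) = 0 := by
      ext m
      simp [In]
    rw [this]
    exact Submodule.zero_mem _
  | add f g _ _ hf hg =>
    rw [mul_add, In_add]
    exact Submodule.add_mem _ hf hg
  | smul c f _ hf =>
    rw [mul_smul_comm, In_smul]
    exact Submodule.smul_mem _ _ hf

lemma hn_V (n : ℕ) : ∀ u : List (Option (Fin r)), hn α n u ∈ VV α := by
  have h1 : (1 : ℚ⟦X⟧) ∈ VV α := LL_V α nil_adm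
  induction n with
  | zero => intro u; rw [hn]; exact h1
  | succ n ih =>
    intro u
    cases u with
    | nil => rw [hn]; exact h1
    | cons o u =>
      rw [hn, sub_eq_add_neg, In_add]
      refine Submodule.add_mem _ (In_V α o (ih u)) ?_
      have h2 : ∀ f : ℚ⟦X⟧, f ∈ VV α → In (-f) ∈ VV α := by
        intro f hf
        have h3 : In (-f) = (-1 : ℚ) • In (UU α 0 none * f) := by
          rw [← In_smul, UU_none, one_mul, neg_one_smul]
        rw [h3]
        exact Submodule.smul_mem _ _ (In_V α none hf)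
      split_ifs
      · exact h2 _ (ih _)
      · exact h2 _ (Submodule.zero_mem _)

lemma hl_V (W : ℕ) (a : Fin (nn r W * nn r W)) : hl α W a ∈ VV α := by
  unfold hl HM Hm
  rw [Matrix.of_apply]
  split_ifs
  · exact hn_V α _ _
  · exact Submodule.zero_mem _

lemma V_le {f : ℚ⟦X⟧} (hf : f ∈ VV α) : f ∈ Sa α := by
  unfold VV at hf
  induction hf using Submodule.span_induction with
  | mem f hf =>
    obtain ⟨w, hw, rfl⟩ := hf
    exact LL_mem α w hw
  | zero => exact (Sa α).zero_mem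
  | add f g _ _ hf hg => exact (Sa α).add_mem hf hg
  | smul c f _ hf =>
    have : c • f = (Polynomial.C c) • f := by
      rw [Pool.Agent.Y141.GF.smul_eq', Polynomial.coe_C]
      ext m
      simp
    rw [this]
    exact (Sa α).smul_mem hf _

lemma aeval_Sa {m : ℕ} {h : Fin m → ℚ⟦X⟧} (hh : ∀ i, h i ∈ Sa α) (R : MvPolynomial (Fin m) (Polynomial ℚ)) :
    MvPolynomial.aeval h R ∈ Sa α := by
  induction R using MvPolynomial.induction_on with
  | C p =>
    rw [MvPolynomial.aeval_C]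
    exact (Sa α).algebraMap_mem p
  | add p q hp hq =>
    rw [map_add]
    exact (Sa α).add_mem hp hq
  | mul_X p j hp =>
    rw [map_mul, MvPolynomial.aeval_X]
    exact (Sa α).mul_mem hp (hh j)

/-- **families of hyperlogarithms are connected** -/
theorem conn_of (hα : Function.Injective α) (h0 : ∀ a, α a ≠ 0) {m : ℕ} {h : Fin m → ℚ⟦X⟧} (hh : ∀ i, h i ∈ Sa α) :
    Pool.Agent.Y118.UL.Conn h := by
  intro A B halg
  by_cases hB : MvPolynomial.aeval h B = 0
  · refine ⟨0, 1, one_ne_zero, ?_⟩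
    rw [hB]
    simp
  have hb : (⟨MvPolynomial.aeval h B, aeval_Sa α hh B⟩ : Sa α) ≠ 0 := fun h1 => hB (congrArg Subtype.val h1)
  obtain ⟨u, v, hv, huv⟩ := conn_mem hα h0 (a := ⟨MvPolynomial.aeval h A, aeval_Sa α hh A⟩) hb halg
  refine ⟨u, v, hv, ?_⟩
  have hinj : Function.Injective (algebraMap ℚ⟦X⟧ (FractionRing ℚ⟦X⟧)) := IsFractionRing.injective _ _
  have h1 : algebraMap ℚ⟦X⟧ (FractionRing ℚ⟦X⟧) (MvPolynomial.aeval h B) ≠ 0 := fun h1 => hB (hinj (by rw [h1, map_zero]))
  have h2 : algebraMap (Polynomial ℚ) (FractionRing ℚ⟦X⟧) v ≠ 0 := by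
    rw [IsScalarTower.algebraMap_apply (Polynomial ℚ) ℚ⟦X⟧ (FractionRing ℚ⟦X⟧)]
    intro h3
    exact hv (Pool.Agent.Y118.UL.ps_inj (hinj (by rw [h3, map_zero, map_zero])))
  rw [div_eq_div_iff h1 h2]
  have h3 : algebraMap (Polynomial ℚ) (FractionRing ℚ⟦X⟧) v * algebraMap ℚ⟦X⟧ (FractionRing ℚ⟦X⟧) (MvPolynomial.aeval h A) =
      algebraMap (Polynomial ℚ) (FractionRing ℚ⟦X⟧) u * algebraMap ℚ⟦X⟧ (FractionRing ℚ⟦X⟧) (MvPolynomial.aeval h B) := by
    have h4 := congrArg (fun x : Sa α => algebraMap ℚ⟦X⟧ (FractionRing ℚ⟦X⟧) (x : ℚ⟦X⟧)) huv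
    simp only [Algebra.smul_def, Subalgebra.coe_mul, Subalgebra.coe_algebraMap, map_mul] at h4
    rw [← IsScalarTower.algebraMap_apply (Polynomial ℚ) ℚ⟦X⟧ (FractionRing ℚ⟦X⟧),
      ← IsScalarTower.algebraMap_apply (Polynomial ℚ) ℚ⟦X⟧ (FractionRing ℚ⟦X⟧)] at h4
    exact h4
  linear_combination h3

theorem conn_hl (hα : Function.Injective α) (h0 : ∀ a, α a ≠ 0) (W : ℕ) : Pool.Agent.Y118.UL.Conn (hl α W) :=
  conn_of α hα h0 fun a => V_le α (hl_V α W a)

end Pool.Agent.Q189.HL
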