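import Pool.Agent.Q189.HL.Shuf

/-!
# Hyperlogarithms: the derivations, and the functions which are algebraic over the rational functions
-/

set_option autoImplicit false

open PowerSeries

namespace Pool.Agent.Q189.HL

open Pool.Agent.Y119.ML (LL UU In geo adm adm_tail adm_none const_LL theta_LL theta_In const_In WI)

variable {r : ℕ} {α : Fin r → ℤ}

/-- removing the first letter -/
noncomputable def dl (o : Option (Fin r)) : Aw r → (Aw r →₀ Polynomial ℚ)
  | ⟨[], _⟩ => 0
  | ⟨a :: w, h⟩ => if a = o then Finsupp.single ⟨w, adm_tail h⟩ 1 else 0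

/-- removing the first letter -/
noncomputable def sD (o : Option (Fin r)) : (Aw r →₀ Polynomial ℚ) →ₗ[Polynomial ℚ] (Aw r →₀ Polynomial ℚ) :=
  Finsupp.linearCombination (Polynomial ℚ) (dl o)

lemma sD_single (o : Option (Fin r)) (w : Aw r) (p : Polynomial ℚ) : sD o (Finsupp.single w p) = p • dl o w :=
  Finsupp.linearCombination_single _ _ _

lemma dl_apply (o : Option (Fin r)) (u w : Aw r) : dl o u w = if u.1 = o :: w.1 then 1 else 0 := by
  obtain ⟨u, hu⟩ := u
  rcases u with _ | ⟨a, u⟩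
  · simp [dl]
  · simp only [dl]
    by_cases ha : a = o
    · subst ha
      rw [if_pos rfl, Finsupp.single_apply]
      by_cases h : u = w.1
      · rw [if_pos (Subtype.ext h), if_pos (by rw [h])]
      · rw [if_neg (fun h1 => h (congrArg Subtype.val h1)), if_neg (fun h1 => h (List.cons.inj h1).2)]
    · rw [if_neg ha, if_neg (fun h1 => ha (List.cons.inj h1).1)]
      rfl

lemma sD_apply (o : Option (Fin r)) (c : Aw r →₀ Polynomial ℚ) (w : Aw r) (h : adm (o :: w.1)) :
    sD o c w = c ⟨o :: w.1, h⟩ := by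
  induction c using Finsupp.induction_linear with
  | zero => simp
  | add c d hc hd => rw [map_add, Finsupp.add_apply, Finsupp.add_apply, hc, hd]
  | single u p =>
    rw [sD_single, Finsupp.smul_apply, dl_apply, Finsupp.single_apply, smul_eq_mul]
    by_cases h1 : u.1 = o :: w.1
    · rw [if_pos h1, if_pos (Subtype.ext h1), mul_one]
    · rw [if_neg h1, if_neg (fun h2 => h1 (congrArg Subtype.val h2)), mul_zero]

lemma sD_apply' (o : Option (Fin r)) (c : Aw r →₀ Polynomial ℚ) (w : Aw r) (h : ¬ adm (o :: w.1)) :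
    sD o c w = 0 := by
  induction c using Finsupp.induction_linear with
  | zero => simp
  | add c d hc hd => rw [map_add, Finsupp.add_apply, hc, hd, add_zero]
  | single u p =>
    rw [sD_single, Finsupp.smul_apply, dl_apply, if_neg (fun h1 : u.1 = o :: w.1 => h (by rw [← h1]; exact u.2)), smul_zero]

section
variable (hα : Function.Injective α) (h0 : ∀ a, α a ≠ 0)

/-- the hyperlogarithms as elements of the algebra -/
noncomputable def Lx (w : List (Option (Fin r))) : Sa α := by
  classical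
  exact if h : adm w then eS α hα h0 (Finsupp.single ⟨w, h⟩ 1) else 0

lemma Lx_eq {w : List (Option (Fin r))} (h : adm w) : Lx hα h0 w = eS α hα h0 (Finsupp.single ⟨w, h⟩ 1) := by
  unfold Lx
  rw [dif_pos h]

lemma coe_Lx {w : List (Option (Fin r))} (h : adm w) : ((Lx hα h0 w : Sa α) : ℚ⟦X⟧) = LL α 0 w := by
  rw [Lx_eq hα h0 h, coe_eS, Ph_single, one_smul]

lemma coe_list (l : List (List (Option (Fin r)))) (h : ∀ w ∈ l, adm w) :
    (((l.map (Lx hα h0)).sum : Sa α) : ℚ⟦X⟧) = (l.map (LL α 0)).sum := by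
  induction l with
  | nil => simp
  | cons w l ih =>
    rw [List.map_cons, List.sum_cons, List.map_cons, List.sum_cons, Subalgebra.coe_add,
      ih fun w' hw' => h w' (List.mem_cons_of_mem _ hw'), coe_Lx hα h0 (h w List.mem_cons_self)]

lemma Lx_mul {u v : List (Option (Fin r))} (hu : adm u) (hv : adm v) :
    Lx hα h0 u * Lx hα h0 v = ((sh u v).map (Lx hα h0)).sum := by
  refine Subtype.ext ?_
  rw [Subalgebra.coe_mul, coe_Lx hα h0 hu, coe_Lx hα h0 hv, LL_mul α _ u v rfl hu hv,
    coe_list hα h0 _ (adm_sh _ u v rfl hu hv)]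

/-- the linear map -/
noncomputable def Dl (o : Option (Fin r)) : Sa α →ₗ[Polynomial ℚ] Sa α :=
  (eS α hα h0).toLinearMap ∘ₗ sD o ∘ₗ (eS α hα h0).symm.toLinearMap

lemma Dl_eS (o : Option (Fin r)) (c : Aw r →₀ Polynomial ℚ) : Dl hα h0 o (eS α hα h0 c) = eS α hα h0 (sD o c) := by
  show eS α hα h0 (sD o ((eS α hα h0).symm (eS α hα h0 c))) = _
  rw [LinearEquiv.symm_apply_apply]

lemma Dl_nil (o : Option (Fin r)) : Dl hα h0 o (Lx hα h0 []) = 0 := by
  rw [Lx_eq hα h0 nil_adm, Dl_eS, sD_single]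
  have : dl o (⟨[], nil_adm⟩ : Aw r) = 0 := rfl
  rw [this, smul_zero, map_zero]

lemma Dl_cons (o a : Option (Fin r)) {w : List (Option (Fin r))} (h : adm (a :: w)) :
    Dl hα h0 o (Lx hα h0 (a :: w)) = if a = o then Lx hα h0 w else 0 := by
  rw [Lx_eq hα h0 h, Dl_eS, sD_single, one_smul]
  have : dl o (⟨a :: w, h⟩ : Aw r) = if a = o then Finsupp.single ⟨w, adm_tail h⟩ 1 else 0 := rfl
  rw [this]
  split_ifs
  · rw [Lx_eq hα h0 (adm_tail h)]
  · rw [map_zero]

lemma Dl_list (o a : Option (Fin r)) (l : List (List (Option (Fin r)))) (h : ∀ w ∈ l, adm (a :: w)) :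
    Dl hα h0 o ((l.map fun w => Lx hα h0 (a :: w)).sum) = if a = o then (l.map (Lx hα h0)).sum else 0 := by
  induction l with
  | nil => simp
  | cons w l ih =>
    rw [List.map_cons, List.sum_cons, map_add, ih fun w' hw' => h w' (List.mem_cons_of_mem _ hw'),
      Dl_cons hα h0 o a (h w List.mem_cons_self), List.map_cons, List.sum_cons]
    split_ifs
    · rfl
    · rw [add_zero]

lemma Lx_nil : Lx hα h0 [] = 1 := by
  refine Subtype.ext ?_
  rw [coe_Lx hα h0 nil_adm]
  rfl

lemma leib_Lx (o : Option (Fin r)) {u v : List (Option (Fin r))} (hu : adm u) (hv : adm v) :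
    Dl hα h0 o (Lx hα h0 u * Lx hα h0 v) = Lx hα h0 u * Dl hα h0 o (Lx hα h0 v) +
      Lx hα h0 v * Dl hα h0 o (Lx hα h0 u) := by
  rcases u with _ | ⟨a, u⟩
  · rw [Dl_nil, Lx_nil, one_mul, one_mul, mul_zero, add_zero]
  rcases v with _ | ⟨b, v⟩
  · rw [Dl_nil, Lx_nil, mul_one, one_mul, mul_zero, zero_add]
  have hne : ∀ (u v : List (Option (Fin r))), u ≠ [] ∨ v ≠ [] → adm u → adm v → ∀ o, ∀ w ∈ sh u v, adm (o :: w) := by
    intro u v huv hu hv o w hw
    refine adm_cons (adm_sh _ u v rfl hu hv w hw) ?_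
    intro h0
    have := length_sh _ u v rfl w hw
    rw [h0] at this
    simp only [List.length_nil] at this
    rcases huv with h1 | h1
    · exact h1 (List.length_eq_zero_iff.1 (by omega))
    · exact h1 (List.length_eq_zero_iff.1 (by omega))
  have k1 := Dl_list hα h0 o a (sh u (b :: v)) (hne _ _ (Or.inr (by simp)) (adm_tail hu) hv a)
  have k2 := Dl_list hα h0 o b (sh (a :: u) v) (hne _ _ (Or.inl (by simp)) hu (adm_tail hv) b)
  rw [← Lx_mul hα h0 (adm_tail hu) hv] at k1
  rw [← Lx_mul hα h0 hu (adm_tail hv)] at k2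
  have e0 : Lx hα h0 (a :: u) * Lx hα h0 (b :: v) = ((sh u (b :: v)).map fun w => Lx hα h0 (a :: w)).sum +
      ((sh (a :: u) v).map fun w => Lx hα h0 (b :: w)).sum := by
    rw [Lx_mul hα h0 hu hv, sh_cons, List.map_append, List.sum_append, List.map_map, List.map_map]
    rfl
  rw [Dl_cons hα h0 o a hu, Dl_cons hα h0 o b hv, e0, map_add, k1, k2]
  split_ifs <;> ring

lemma Lx_single (u : Aw r) (p : Polynomial ℚ) : eS α hα h0 (Finsupp.single u p) = p • Lx hα h0 u.1 := by
  rw [Lx_eq hα h0 u.2, ← map_smul]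
  congr 1
  rw [Finsupp.smul_single, smul_eq_mul, mul_one]

/-- **the derivations** -/
noncomputable def Dd (o : Option (Fin r)) : Derivation (Polynomial ℚ) (Sa α) (Sa α) :=
  Derivation.mk' (Dl hα h0 o) (by
    intro a b
    obtain ⟨c, rfl⟩ := (eS α hα h0).surjective a
    obtain ⟨d, rfl⟩ := (eS α hα h0).surjective b
    simp only [smul_eq_mul]
    induction c using Finsupp.induction_linear with
    | zero => simp
    | add c c' h h' =>
      rw [map_add, add_mul, map_add, h, h', add_mul, map_add, mul_add]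
      ring
    | single u p =>
      induction d using Finsupp.induction_linear with
      | zero => simp
      | add d d' h h' =>
        rw [map_add, mul_add, map_add, h, h', add_mul, map_add, mul_add]
        ring
      | single v q =>
        rw [Lx_single hα h0, Lx_single hα h0, smul_mul_smul_comm, map_smul, map_smul, map_smul, leib_Lx hα h0 o u.2 v.2,
          smul_add, smul_mul_smul_comm, smul_mul_smul_comm, mul_comm q p])

lemma Dd_apply (o : Option (Fin r)) (a : Sa α) : Dd hα h0 o a = Dl hα h0 o a := rfl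

lemma Dd_eS (o : Option (Fin r)) (c : Aw r →₀ Polynomial ℚ) : Dd hα h0 o (eS α hα h0 c) = eS α hα h0 (sD o c) :=
  Dl_eS hα h0 o c

/-- constants -/
lemma const_of (a : Sa α) (h : ∀ o, Dd hα h0 o a = 0) : ∃ p : Polynomial ℚ, a = algebraMap (Polynomial ℚ) (Sa α) p := by
  obtain ⟨c, rfl⟩ := (eS α hα h0).surjective a
  refine ⟨c ⟨[], nil_adm⟩, ?_⟩
  have h1 : c = Finsupp.single ⟨[], nil_adm⟩ (c ⟨[], nil_adm⟩) := by
    ext1 w
    obtain ⟨w, hw⟩ := w
    rcases w with _ | ⟨a, w⟩
    · rw [Finsupp.single_eq_same]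
    · rw [Finsupp.single_apply, if_neg (fun h2 => by simpa using congrArg Subtype.val h2)]
      have h2 := h a
      rw [Dd_eS, LinearEquiv.map_eq_zero_iff] at h2
      have h3 := sD_apply a c ⟨w, adm_tail hw⟩ hw
      rw [h2] at h3
      exact h3.symm
  have h2 := Lx_single hα h0 ⟨[], nil_adm⟩ (c ⟨[], nil_adm⟩)
  rw [← h1, Lx_nil] at h2
  rw [h2, Algebra.algebraMap_eq_smul_one]

instance : IsDomain (Sa α) := inferInstance

/-- elements with the same logarithmic derivatives -/
theorem ratio_const (N : ℕ) : ∀ a b : Sa α, b ≠ 0 →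
    (∀ w : Aw r, (eS α hα h0).symm b w ≠ 0 → w.1.length ≤ N) → (∀ o, b * Dd hα h0 o a = a * Dd hα h0 o b) →
    ∃ u v : Polynomial ℚ, v ≠ 0 ∧ v • a = u • b := by
  have hconst : ∀ a b : Sa α, b ≠ 0 → (∀ o, b * Dd hα h0 o a = a * Dd hα h0 o b) → (∀ o, Dd hα h0 o b = 0) →
      ∃ u v : Polynomial ℚ, v ≠ 0 ∧ v • a = u • b := by
    intro a b hb h hc
    obtain ⟨p, hp⟩ := const_of hα h0 b hc
    obtain ⟨q, hq⟩ := const_of hα h0 a fun o => by
      have h1 := h o
      rw [hc o, mul_zero] at h1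
      exact (mul_eq_zero.1 h1).resolve_left hb
    refine ⟨q, p, ?_, ?_⟩
    · rintro rfl
      apply hb
      rw [hp, map_zero]
    · rw [hp, hq, Algebra.smul_def, Algebra.smul_def, mul_comm]
  induction N with
  | zero =>
    intro a b hb hN h
    refine hconst a b hb h fun o => ?_
    obtain ⟨d, rfl⟩ := (eS α hα h0).surjective b
    rw [Dd_eS, LinearEquiv.map_eq_zero_iff]
    ext1 w
    by_cases hw : adm (o :: w.1)
    · rw [sD_apply o d w hw]
      by_contra hne
      have := hN ⟨o :: w.1, hw⟩ (by rw [LinearEquiv.symm_apply_apply]; exact hne)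
      simp at this
    · rw [sD_apply' o d w hw]
      rfl
  | succ N ih =>
    intro a b hb hN h
    by_cases hc : ∀ o, Dd hα h0 o b = 0
    · exact hconst a b hb h hc
    push Not at hc
    obtain ⟨o, ho⟩ := hc
    obtain ⟨u, v, hv, huv⟩ := ih (Dd hα h0 o a) (Dd hα h0 o b) ho (fun w hw => by
      obtain ⟨d, rfl⟩ := (eS α hα h0).surjective b
      rw [Dd_eS, LinearEquiv.symm_apply_apply] at hw
      by_cases hw' : adm (o :: w.1)
      · rw [sD_apply o d w hw'] at hw
        have := hN ⟨o :: w.1, hw'⟩ (by rw [LinearEquiv.symm_apply_apply]; exact hw)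
        simp only [List.length_cons] at this
        omega
      · exact absurd (sD_apply' o d w hw') hw) (fun o' => by
      have e1 := h o
      have e2 := h o'
      have e3 := congrArg (Dd hα h0 o') e1
      rw [Derivation.leibniz, Derivation.leibniz, smul_eq_mul, smul_eq_mul, smul_eq_mul, smul_eq_mul] at e3
      refine mul_left_cancel₀ (mul_ne_zero hb hb) ?_
      linear_combination (b * Dd hα h0 o b) * e3 + (Dd hα h0 o b ^ 2) * e2 -
        (Dd hα h0 o' b * Dd hα h0 o b + b * (Dd hα h0 o') ((Dd hα h0 o) b)) * e1)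
    refine ⟨u, v, hv, ?_⟩
    refine mul_right_cancel₀ ho ?_
    rw [smul_mul_assoc, smul_mul_assoc, ← h o, ← mul_smul_comm, huv, mul_smul_comm]

end

end Pool.Agent.Q189.HL
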