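import Pool.Agent.Q189.HL.Chr

/-!
# Hyperlogarithms: extraction of the coefficients of a linear form
-/

set_option autoImplicit false

open PowerSeries

namespace Pool.Agent.Q189.HL

open Pool.Agent.Y119.ML (LL UU In geo adm adm_tail adm_none const_LL theta_LL theta_In const_In WI)
open Pool.Agent.Y120.GH (cx Cw ou)

variable {r : ℕ} (α : Fin r → ℤ)

/-- the values at a point: powers of a number times the hyperlogarithms at `1 / t` -/
noncomputable def vv (E W : ℕ) (s t : ℂ) (β : Fin (E + 1) × WI r W) : ℂ := s ^ (β.1 : ℕ) * ou (cx (LL α 0 β.2.1)) t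

theorem span_vv (hα : Function.Injective α) (h0 : ∀ a, α a ≠ 0) (E W : ℕ) :
    Submodule.span ℂ {v : Fin (E + 1) × WI r W → ℂ | ∃ s t : ℂ, Kr α < ‖t‖ ∧ v = vv α E W s t} = ⊤ := by
  classical
  by_contra hne
  obtain ⟨f, hf0, hf⟩ := Submodule.exists_le_ker_of_lt_top _ (lt_top_iff_ne_top.2 hne)
  have hK : 0 ≤ Kr α := by linarith [one_le_Kr α]
  set c : Fin (E + 1) × WI r W → ℂ := fun β => f (Pi.single β 1) with hc
  have hfv : ∀ v, f v = ∑ β, v β * c β := by
    intro v
    have h1 : v = ∑ β, v β • (Pi.single β (1 : ℂ) : Fin (E + 1) × WI r W → ℂ) := by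
      funext β
      rw [Finset.sum_apply, Finset.sum_eq_single β]
      · simp
      · intro b _ hb
        simp [Ne.symm hb]
      · intro h; exact absurd (Finset.mem_univ _) h
    conv_lhs => rw [h1]
    rw [map_sum]
    refine Finset.sum_congr rfl fun β _ => ?_
    rw [map_smul, smul_eq_mul]
  have hzero : ∀ s t : ℂ, Kr α < ‖t‖ → ∑ e : Fin (E + 1), (∑ w : WI r W, ou (cx (LL α 0 w.1)) t * c (e, w)) * s ^ (e : ℕ) = 0 := by
    intro s t ht
    have h1 : f (vv α E W s t) = 0 := hf (Submodule.subset_span ⟨s, t, ht, rfl⟩)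
    rw [hfv, Fintype.sum_prod_type] at h1
    rw [← h1]
    refine Finset.sum_congr rfl fun e _ => ?_
    rw [Finset.sum_mul]
    refine Finset.sum_congr rfl fun w _ => ?_
    unfold vv
    ring
  have hzero' : ∀ t : ℂ, Kr α < ‖t‖ → ∀ e : Fin (E + 1), ∑ w : WI r W, ou (cx (LL α 0 w.1)) t * c (e, w) = 0 := by
    intro t ht e
    set P : Polynomial ℂ := ∑ e : Fin (E + 1), Polynomial.C (∑ w : WI r W, ou (cx (LL α 0 w.1)) t * c (e, w)) *
      Polynomial.X ^ (e : ℕ) with hP
    have hP0 : P = 0 := by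
      refine Polynomial.funext fun s => ?_
      rw [hP, Polynomial.eval_finsetSum, Polynomial.eval_zero, ← hzero s t ht]
      refine Finset.sum_congr rfl fun e _ => ?_
      rw [Polynomial.eval_mul, Polynomial.eval_C, Polynomial.eval_pow, Polynomial.eval_X]
    have h1 := congrArg (fun Q : Polynomial ℂ => Q.coeff (e : ℕ)) hP0
    simp only [hP, Polynomial.finsetSum_coeff, Polynomial.coeff_C_mul, Polynomial.coeff_X_pow, Polynomial.coeff_zero] at h1
    rw [Finset.sum_eq_single e] at h1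
    · simpa using h1
    · intro b _ hb
      rw [if_neg (fun h => hb (Fin.ext h.symm)), mul_zero]
    · intro h; exact absurd (Finset.mem_univ _) h
  have hcz : ∀ β, c β = 0 := by
    rintro ⟨e, w⟩
    have h1 : ∑ w : WI r W, ((Polynomial.C (c (e, w)) : Polynomial ℂ) : PowerSeries ℂ) * cx (LL α 0 w.1) = 0 := by
      have hev : ∀ᶠ t : ℂ in nhds ((Kr α + 1 : ℝ) : ℂ), Kr α < ‖t‖ := by
        refine (isOpen_lt continuous_const continuous_norm).mem_nhds ?_
        show Kr α < ‖((Kr α + 1 : ℝ) : ℂ)‖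
        rw [Complex.norm_real, Real.norm_of_nonneg (by linarith)]
        linarith
      have hmem : ∀ w : WI r W, ((Polynomial.C (c (e, w)) : Polynomial ℂ) : PowerSeries ℂ) * cx (LL α 0 w.1) ∈ Cw (Kr α) :=
        fun w => Subring.mul_mem _ (Pool.Agent.Y120.GH.poly_mem _) (Cw_LL α _)
      refine Pool.Agent.Y120.GH.ou_inj hK (Subring.sum_mem _ fun w _ => hmem w) (p := ((Kr α + 1 : ℝ) : ℂ)) hev.self_of_nhds ?_
      filter_upwards [hev] with t ht
      rw [Pool.Agent.Y120.GH.ou_sum hK _ (fun w _ => hmem w) ht, ← hzero' t ht e]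
      refine Finset.sum_congr rfl fun w _ => ?_
      rw [Pool.Agent.Y120.GH.ou_mul hK (Pool.Agent.Y120.GH.poly_mem _) (Cw_LL α _) ht, Pool.Agent.Y120.GH.ou_poly,
        Polynomial.eval_C, mul_comm]
    have h2 := Pool.Agent.Y120.GH.li_cx (li_LL α hα h0 W) (fun w => Polynomial.C (c (e, w))) h1 w
    exact Polynomial.C_eq_zero.1 h2
  apply hf0
  refine LinearMap.ext fun v => ?_
  rw [hfv, LinearMap.zero_apply]
  exact Finset.sum_eq_zero fun β _ => by rw [hcz β, mul_zero]

theorem extract (hα : Function.Injective α) (h0 : ∀ a, α a ≠ 0) (E W : ℕ) (β : Fin (E + 1) × WI r W) :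
    ∃ (N : ℕ) (c s t : Fin N → ℂ), (∀ i, Kr α < ‖t i‖) ∧ ∀ β', ∑ i, c i * vv α E W (s i) (t i) β' =
      if β' = β then 1 else 0 := by
  classical
  have h1 : (Pi.single β (1 : ℂ) : Fin (E + 1) × WI r W → ℂ) ∈
      Submodule.span ℂ {v : Fin (E + 1) × WI r W → ℂ | ∃ s t : ℂ, Kr α < ‖t‖ ∧ v = vv α E W s t} := by
    rw [span_vv α hα h0]
    exact Submodule.mem_top
  rw [Submodule.mem_span_set'] at h1
  obtain ⟨n, c, g, hg⟩ := h1
  choose s t ht hst using fun i => (g i).2
  refine ⟨n, c, s, t, ht, fun β' => ?_⟩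
  have h2 := congrFun hg β'
  rw [Finset.sum_apply, Pi.single_apply] at h2
  rw [← h2]
  refine Finset.sum_congr rfl fun i _ => ?_
  rw [Pi.smul_apply, smul_eq_mul, hst i]

end Pool.Agent.Q189.HL
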