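import Pool.Agent.Q189.HL.Ext

/-!
# Near linear relations between products of hyperlogarithms
-/

set_option autoImplicit false

open PowerSeries

namespace Pool.Agent.Q189.HL

open Pool.Agent.Y119.ML (LL UU In geo adm adm_tail adm_none const_LL theta_LL theta_In const_In WI)
open Pool.Agent.Y120.GH (cx Cw ou)
open Pool.Agent.Y916.Sl Pool.Agent.Y916.Al Pool.Agent.Q189.MF

section
variable {r : ℕ} (α : Fin r → ℤ)

/-- the entry of the matrix for a word -/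
noncomputable def iw {W : ℕ} (w : WI r W) : Fin (nn r W * nn r W) :=
  (Pool.Agent.Y119.HZ.ix _).symm ((ew r W).symm ⟨w.1, w.2.1⟩, (ew r W).symm ⟨[], by simp⟩)

lemma hu_adm (w : List (Option (Fin r))) (h : adm w) : hu α w = LL α 0 w := by
  induction w with
  | nil => rfl
  | cons o w ih =>
    rw [hu_cons, if_neg h, sub_zero, ih (adm_tail h)]
    rfl

lemma hl_iw {W : ℕ} (w : WI r W) : hl α W (iw w) = LL α 0 w.1 := by
  unfold hl iw HM
  rw [Equiv.apply_symm_apply, Matrix.of_apply]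
  simp only
  rw [Equiv.apply_symm_apply, Equiv.apply_symm_apply]
  have h1 := Hm_append α w.1 []
  rw [List.append_nil] at h1
  rw [h1, hu_adm α w.1 w.2.2]

lemma evc_eq (f : ℚ⟦X⟧) (t : ℂ) : evc (1 / t) f = ou (cx f) t := by
  unfold Pool.Agent.Y120.GH.ou Pool.Agent.Y120.GH.inn Pool.Agent.Y916.Al.evc
  refine tsum_congr fun m => ?_
  rw [Pool.Agent.Y120.GH.coeff_cx]

end

variable {k : ℕ} {r : Fin k → ℕ}

/-- the indices of the products -/
abbrev JX (r : Fin k → ℕ) (W : ℕ) : Type := ∀ j, Fin (W + 1) × WI (r j) W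

/-- the coefficients of a linear form in the products are small if the form is small -/
def GdL {g : ℕ} (α : ∀ j, Fin (r j) → ℤ) (W d B : ℕ) (ζ : Fin g → ℂ) (x : Fin k → ℂ) (H : ℝ) : Prop :=
  ∀ ℓ : Fin k → ℂ, (∀ j, Complex.exp (ℓ j) = x j) → (∀ j, ‖ℓ j‖ ≤ H) →
    (∀ P : JX r W → MvPolynomial (Fin k) ℤ, (∀ b, (P b).totalDegree ≤ d) →
      (∀ b e, |(((P b).coeff e : ℤ) : ℝ)| ≤ H) → ∀ b₀, MvPolynomial.aeval x (P b₀) ≠ 0 →
      1 ≤ H ^ B * ‖∑ b, MvPolynomial.aeval x (P b) * ∏ j, (ℓ j ^ ((b j).1 : ℕ) * evc (1 / x j) (LL (α j) 0 (b j).2.1))‖) ∧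
    ∀ P : JX r W → MvPolynomial (Fin g ⊕ Fin k) ℤ, (∀ b, (P b).totalDegree ≤ d) →
      (∀ b e, |(((P b).coeff e : ℤ) : ℝ)| ≤ H) → ∀ b₀,
      ‖MvPolynomial.aeval (Sum.elim ζ x) (P b₀)‖ ≤ H ^ B *
        ‖∑ b, MvPolynomial.aeval (Sum.elim ζ x) (P b) * ∏ j, (ℓ j ^ ((b j).1 : ℕ) * evc (1 / x j) (LL (α j) 0 (b j).2.1))‖

lemma GdL.mono {g : ℕ} {α : ∀ j, Fin (r j) → ℤ} {W d B : ℕ} {ζ : Fin g → ℂ} {x : Fin k → ℂ} {H H' : ℝ} (h1 : 1 ≤ H)
    (h2 : H ≤ H') (h3 : H' ≤ H ^ 2) (hg : GdL α W d B ζ x H') : GdL α W d (2 * B) ζ x H := by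
  intro ℓ hℓ hℓH
  obtain ⟨g1, g2⟩ := hg ℓ hℓ fun j => (hℓH j).trans h2
  refine ⟨fun P hP hPH b₀ hb => ?_, fun P hP hPH b₀ => ?_⟩
  · refine (g1 P hP (fun b e => (hPH b e).trans h2) b₀ hb).trans ?_
    refine mul_le_mul_of_nonneg_right ?_ (norm_nonneg _)
    rw [pow_mul]
    exact pow_le_pow_left₀ (by linarith) h3 _
  · refine (g2 P hP (fun b e => (hPH b e).trans h2) b₀).trans ?_
    refine mul_le_mul_of_nonneg_right ?_ (norm_nonneg _)
    rw [pow_mul]
    exact pow_le_pow_left₀ (by linarith) h3 _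

/-- the variables -/
abbrev Vr (r : Fin k → ℕ) (W : ℕ) : Type := Σ j : Fin k, Option (Fin (nn (r j) W * nn (r j) W))

variable {W : ℕ}

/-- the exponents of an index -/
noncomputable def mo (τ : Type) (b : JX r W) : (Vr r W ⊕ τ) →₀ ℕ :=
  ∑ j, (Finsupp.single (Sum.inl ⟨j, none⟩) ((b j).1 : ℕ) + Finsupp.single (Sum.inl ⟨j, some (iw (b j).2)⟩) 1)

/-- the product of an index -/
noncomputable def mp (τ : Type) (b : JX r W) : MvPolynomial (Vr r W ⊕ τ) ℤ :=
  ∏ j, (MvPolynomial.X (Sum.inl ⟨j, none⟩) ^ ((b j).1 : ℕ) * MvPolynomial.X (Sum.inl ⟨j, some (iw (b j).2)⟩))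

lemma mp_eq (τ : Type) (b : JX r W) : mp τ b = MvPolynomial.monomial (mo τ b) 1 := by
  unfold mp mo
  rw [MvPolynomial.monomial_sum_one]
  refine Finset.prod_congr rfl fun j _ => ?_
  rw [MvPolynomial.X_pow_eq_monomial, MvPolynomial.X, MvPolynomial.monomial_mul, mul_one]

/-- the polynomial of a linear form in the products -/
noncomputable def PP {τ : Type} (P : JX r W → MvPolynomial τ ℤ) : MvPolynomial (Vr r W ⊕ τ) ℤ :=
  ∑ b, MvPolynomial.rename Sum.inr (P b) * mp τ b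

lemma aeval_PP {τ : Type} (P : JX r W → MvPolynomial τ ℤ) (y : Vr r W → ℂ) (u : τ → ℂ) :
    MvPolynomial.aeval (Sum.elim y u) (PP P) =
      ∑ b, MvPolynomial.aeval u (P b) * ∏ j, (y ⟨j, none⟩ ^ ((b j).1 : ℕ) * y ⟨j, some (iw (b j).2)⟩) := by
  unfold PP
  rw [map_sum]
  refine Finset.sum_congr rfl fun b _ => ?_
  rw [map_mul, MvPolynomial.aeval_rename, Sum.elim_comp_inr]
  congr 1
  unfold mp
  rw [map_prod]
  refine Finset.prod_congr rfl fun j _ => ?_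
  rw [map_mul, map_pow, MvPolynomial.aeval_X, MvPolynomial.aeval_X]
  rfl

lemma deg_PP {τ : Type} (P : JX r W → MvPolynomial τ ℤ) {d : ℕ} (hP : ∀ b, (P b).totalDegree ≤ d) :
    (PP P).totalDegree ≤ d + k * (W + 1) := by
  unfold PP
  refine (MvPolynomial.totalDegree_finsetSum _ _).trans (Finset.sup_le fun b _ => ?_)
  refine (MvPolynomial.totalDegree_mul _ _).trans (add_le_add ((MvPolynomial.totalDegree_rename_le _ _).trans (hP b)) ?_)
  unfold mp
  refine (MvPolynomial.totalDegree_finsetProd _ _).trans ?_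
  calc _ ≤ ∑ _j : Fin k, (W + 1) := by
        refine Finset.sum_le_sum fun j _ => ?_
        refine (MvPolynomial.totalDegree_mul _ _).trans ?_
        refine add_le_add ((MvPolynomial.totalDegree_pow _ _).trans ?_) (by rw [MvPolynomial.totalDegree_X])
        rw [MvPolynomial.totalDegree_X, mul_one]
        exact Nat.lt_succ_iff.1 (b j).1.2
    _ = _ := by rw [Finset.sum_const, Finset.card_univ, Fintype.card_fin, smul_eq_mul]

lemma coeff_PP {τ : Type} (P : JX r W → MvPolynomial τ ℤ) {H : ℝ} (hH : 0 ≤ H)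
    (hP : ∀ b e, |(((P b).coeff e : ℤ) : ℝ)| ≤ H) (e) :
    |(((PP P).coeff e : ℤ) : ℝ)| ≤ (Fintype.card (JX r W) : ℝ) * H := by
  classical
  unfold PP
  rw [MvPolynomial.coeff_sum]
  push_cast
  refine (Finset.abs_sum_le_sum_abs _ _).trans ?_
  calc _ ≤ ∑ _b : JX r W, H := by
        refine Finset.sum_le_sum fun b _ => ?_
        rw [mp_eq, MvPolynomial.coeff_mul_monomial']
        split_ifs
        · rw [mul_one]
          by_cases h : ∃ u : τ →₀ ℕ, u.mapDomain (Sum.inr : τ → Vr r W ⊕ τ) = e - mo τ b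
          · obtain ⟨u, hu⟩ := h
            rw [← hu, MvPolynomial.coeff_rename_mapDomain _ Sum.inr_injective]
            exact hP b u
          · rw [MvPolynomial.coeff_rename_eq_zero _ _ _ fun u hu => absurd ⟨u, hu⟩ h]
            simpa using hH
        · simpa using hH
    _ = _ := by rw [Finset.sum_const, Finset.card_univ, nsmul_eq_mul]

/-- the points of the extraction -/
noncomputable def yv (α : ∀ j, Fin (r j) → ℤ) (W : ℕ) (s t : Fin k → ℂ) : Vr r W → ℂ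
  | ⟨j, none⟩ => s j
  | ⟨j, some i⟩ => ou (cx (hl (α j) W i)) (t j)

lemma yv_mem (α : ∀ j, Fin (r j) → ℤ) (hα : ∀ j, Function.Injective (α j)) (h0 : ∀ j a, α j a ≠ 0) (s t x : Fin k → ℂ)
    (ht : ∀ j, Kr (α j) < ‖t j‖) : yv α W s t ∈ FibD (fun j => hl (α j) W) x := by
  intro j
  have h1 : (fun i => ou (cx (hl (α j) W i)) (t j)) ∈ Pool.Agent.Y916.Af.Vc (hl (α j) W) (x j) :=
    fib_of (α j) (hα j) (h0 j) (fun i => hl_V (α j) W i) (x j) (ht j)
  exact h1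

/-- the constants of the extraction -/
theorem points (α : ∀ j, Fin (r j) → ℤ) (hα : ∀ j, Function.Injective (α j)) (h0 : ∀ j a, α j a ≠ 0) (b₀ : JX r W) :
    ∃ (N : Fin k → ℕ) (C : (∀ j, Fin (N j)) → ℂ) (y : (∀ j, Fin (N j)) → Vr r W → ℂ),
      (∀ ι x, y ι ∈ FibD (fun j => hl (α j) W) x) ∧
      ∀ {τ : Type} (P : JX r W → MvPolynomial τ ℤ) (u : τ → ℂ),
        ∑ ι, C ι * MvPolynomial.aeval (Sum.elim (y ι) u) (PP P) = MvPolynomial.aeval u (P b₀) := by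
  classical
  choose N c s t ht hs using fun j => extract (α j) (hα j) (h0 j) W W (b₀ j)
  refine ⟨N, fun ι => ∏ j, c j (ι j), fun ι => yv α W (fun j => s j (ι j)) fun j => t j (ι j), fun ι x => ?_, fun P u => ?_⟩
  · exact yv_mem α hα h0 _ _ x fun j => ht j (ι j)
  · have h1 : ∀ ι : ∀ j, Fin (N j), (∏ j, c j (ι j)) * MvPolynomial.aeval (Sum.elim
        (yv α W (fun j => s j (ι j)) fun j => t j (ι j)) u) (PP P) =
        ∑ b, MvPolynomial.aeval u (P b) * ∏ j, (c j (ι j) * vv (α j) W W (s j (ι j)) (t j (ι j)) (b j)) := by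
      intro ι
      rw [aeval_PP, Finset.mul_sum]
      refine Finset.sum_congr rfl fun b _ => ?_
      rw [mul_left_comm, ← Finset.prod_mul_distrib]
      congr 1
      refine Finset.prod_congr rfl fun j _ => ?_
      have h4 : yv α W (fun j => s j (ι j)) (fun j => t j (ι j)) ⟨j, none⟩ = s j (ι j) := rfl
      have h5 : yv α W (fun j => s j (ι j)) (fun j => t j (ι j)) ⟨j, some (iw (b j).2)⟩ =
        ou (cx (hl (α j) W (iw (b j).2))) (t j (ι j)) := rfl
      rw [h4, h5, hl_iw]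
      rfl
    simp only [h1]
    rw [Finset.sum_comm]
    have h2 : ∀ b : JX r W, ∑ ι : ∀ j, Fin (N j), MvPolynomial.aeval u (P b) *
        ∏ j, (c j (ι j) * vv (α j) W W (s j (ι j)) (t j (ι j)) (b j)) = if b = b₀ then MvPolynomial.aeval u (P b) else 0 := by
      intro b
      rw [← Finset.mul_sum]
      have h3 := Finset.prod_univ_sum (fun j => (Finset.univ : Finset (Fin (N j))))
        (fun j i => c j i * vv (α j) W W (s j i) (t j i) (b j))
      rw [Fintype.piFinset_univ] at h3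
      rw [← h3]
      simp only [hs]
      by_cases hb : b = b₀
      · subst hb
        simp
      · rw [if_neg hb]
        obtain ⟨j, hj⟩ := Function.ne_iff.1 hb
        rw [Finset.prod_eq_zero (Finset.mem_univ j) (if_neg hj), mul_zero]
    simp only [h2]
    rw [Finset.sum_ite_eq' Finset.univ b₀, if_pos (Finset.mem_univ _)]

theorem hgd (α : ∀ j, Fin (r j) → ℤ) (hα : ∀ j, Function.Injective (α j)) (h0 : ∀ j a, α j a ≠ 0) (W g d B₀ : ℕ) :
    ∃ (B : ℕ) (H₀ : ℝ), ∀ (ζ : Fin g → ℂ) (x : Fin k → ℂ) (H : ℝ), H₀ ≤ H →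
      GdD (fun j => hl (α j) W) (d + k * (W + 1)) B₀ ζ x (H ^ 2) → GdL α W d B ζ x H := by
  classical
  choose N C y hy hC using fun b₀ : JX r W => points α hα h0 b₀
  set K : ℝ := ∑ b₀ : JX r W, ∑ ι, ‖C b₀ ι‖ * max 1 ‖y b₀ ι‖ ^ B₀ with hK
  have hK0 : 0 ≤ K := Finset.sum_nonneg fun _ _ => Finset.sum_nonneg fun _ _ => by positivity
  have hKb : ∀ b₀, ∑ ι, ‖C b₀ ι‖ * max 1 ‖y b₀ ι‖ ^ B₀ ≤ K := fun b₀ =>
    Finset.single_le_sum (f := fun b₀ => ∑ ι, ‖C b₀ ι‖ * max 1 ‖y b₀ ι‖ ^ B₀)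
      (fun _ _ => Finset.sum_nonneg fun _ _ => by positivity) (Finset.mem_univ b₀)
  refine ⟨2 * B₀ + 1, max (max 1 (Fintype.card (JX r W) : ℝ)) K, fun ζ x H hH hg => ?_⟩
  have hH1 : 1 ≤ H := (le_max_left _ _).trans ((le_max_left _ _).trans hH)
  have hHc : (Fintype.card (JX r W) : ℝ) ≤ H := (le_max_right _ _).trans ((le_max_left _ _).trans hH)
  have hHK : K ≤ H := (le_max_right _ _).trans hH
  have hHH : H ≤ H ^ 2 := le_self_pow₀ hH1 (by norm_num)
  intro ℓ hℓ hℓH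
  obtain ⟨g1, g2⟩ := hg ℓ hℓ fun j => (hℓH j).trans hHH
  have hco : ∀ {τ : Type} (P : JX r W → MvPolynomial τ ℤ), (∀ b e, |(((P b).coeff e : ℤ) : ℝ)| ≤ H) →
      ∀ e, |(((PP P).coeff e : ℤ) : ℝ)| ≤ H ^ 2 := by
    intro τ P hP e
    refine (coeff_PP P (by linarith) hP e).trans ?_
    rw [pow_two]
    exact mul_le_mul_of_nonneg_right hHc (by linarith)
  have hpt : ∀ {τ : Type} (P : JX r W → MvPolynomial τ ℤ) (u : τ → ℂ),
      MvPolynomial.aeval (Sum.elim (ptD (fun j => hl (α j) W) x ℓ) u) (PP P) =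
        ∑ b, MvPolynomial.aeval u (P b) * ∏ j, (ℓ j ^ ((b j).1 : ℕ) * evc (1 / x j) (LL (α j) 0 (b j).2.1)) := by
    intro τ P u
    rw [aeval_PP]
    refine Finset.sum_congr rfl fun b _ => ?_
    congr 1
    refine Finset.prod_congr rfl fun j _ => ?_
    unfold ptD
    simp only [Option.elim_none, Option.elim_some]
    rw [hl_iw]
  refine ⟨fun P hP hPH b₀ hb => ?_, fun P hP hPH b₀ => ?_⟩
  · have h1 := hC b₀ P x
    obtain ⟨ι, hι⟩ : ∃ ι, MvPolynomial.aeval (Sum.elim (y b₀ ι) x) (PP P) ≠ 0 := by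
      by_contra hcon
      push Not at hcon
      apply hb
      rw [← h1]
      exact Finset.sum_eq_zero fun ι _ => by rw [hcon ι, mul_zero]
    have h2 := g1 (PP P) (deg_PP P hP) (hco P hPH) ⟨y b₀ ι, hy b₀ ι _, hι⟩
    rw [hpt, ← pow_mul] at h2
    refine h2.trans (mul_le_mul_of_nonneg_right (pow_le_pow_right₀ hH1 (by omega)) (norm_nonneg _))
  · rw [← hC b₀ P (Sum.elim ζ x)]
    set Λ : ℝ := ‖∑ b, MvPolynomial.aeval (Sum.elim ζ x) (P b) *
      ∏ j, (ℓ j ^ ((b j).1 : ℕ) * evc (1 / x j) (LL (α j) 0 (b j).2.1))‖ with hΛ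
    have hΛ0 : 0 ≤ Λ := norm_nonneg _
    refine (norm_sum_le _ _).trans ?_
    calc _ ≤ ∑ ι, (‖C b₀ ι‖ * max 1 ‖y b₀ ι‖ ^ B₀) * (H ^ (2 * B₀) * Λ) := by
          refine Finset.sum_le_sum fun ι _ => ?_
          rw [norm_mul]
          have h2 := g2 (PP P) (deg_PP P hP) (hco P hPH) (y b₀ ι) (hy b₀ ι _)
          rw [hpt, ← hΛ] at h2
          refine (mul_le_mul_of_nonneg_left h2 (norm_nonneg _)).trans (le_of_eq ?_)
          rw [mul_pow, ← pow_mul]
          ring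
      _ = (∑ ι, ‖C b₀ ι‖ * max 1 ‖y b₀ ι‖ ^ B₀) * (H ^ (2 * B₀) * Λ) := by rw [Finset.sum_mul]
      _ ≤ H * (H ^ (2 * B₀) * Λ) := mul_le_mul_of_nonneg_right ((hKb b₀).trans hHK) (by positivity)
      _ = _ := by rw [pow_succ]; ring

end Pool.Agent.Q189.HL
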