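import Pool.Agent.Q189.HL.Fin

/-!
# Near linear relations between products of hyperlogarithms at almost all tuples of algebraic points
-/

set_option autoImplicit false

open PowerSeries

namespace Pool.Agent.Q189.HL

open Pool.Agent.Y119.ML (LL UU In geo adm adm_tail adm_none const_LL theta_LL theta_In const_In WI)
open Pool.Agent.Y120.GH (cx Cw ou)
open Pool.Agent.Y916.Sl Pool.Agent.Y916.Al Pool.Agent.Q189.MF Pool.Agent.Q246.NR2 Pool.Agent.Q246.LN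

variable {k : ℕ} {r : Fin k → ℕ}

theorem main (α : ∀ j, Fin (r j) → ℤ) (hα : ∀ j, Function.Injective (α j)) (h0 : ∀ j a, α j a ≠ 0) (W g m d : ℕ)
    (hm : 1 ≤ m) : ∃ (B : ℕ) (C c : ℝ), 0 < c ∧ ∀ T : ℕ, 1 ≤ T →
    (∃ H₀ : ℝ, ∀ H₁ : ℝ, H₀ ≤ H₁ → ∀ ζ : Fin g → ℂ,
      (({x : Fin k → ℂ | (∀ j, SInt m T (x j)) ∧ ¬ ∀ H : ℝ, H₁ ≤ H → H ≤ H₁ ^ Real.exp ((T : ℝ) ^ c) →
        GdL α W d B ζ x H}.ncard : ℕ) : ℝ) ≤ C * (T : ℝ) ^ (-c) * (({ξ : ℂ | SInt m T ξ}.ncard : ℕ) : ℝ) ^ k) ∧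
    ∀ ζ : Fin g → ℂ, (({x : Fin k → ℂ | (∀ j, SInt m T (x j)) ∧ ¬ ∀ N₀ : ℕ, ∃ N, N₀ ≤ N ∧
      (({j : ℕ | j < N ∧ ¬ ∀ H : ℝ, 2 ^ (2 ^ j) ≤ H → H ≤ 2 ^ (2 ^ (j + 1)) → GdL α W d B ζ x H}.ncard : ℕ) : ℝ) ≤
          (T : ℝ) ^ (-c) * N}.ncard : ℕ) : ℝ) ≤ C * (T : ℝ) ^ (-c) * (({ξ : ℂ | SInt m T ξ}.ncard : ℕ) : ℝ) ^ k := by
  classical
  choose K hK hs using fun j => size_hl (α j) W
  refine torD (r := fun j => nn (r j) W * nn (r j) W) (h := fun j => hl (α j) W) (fun j => fam_hl (α j) W)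
    (fun j => ⟨K j, hs j⟩) (fun j => conn_hl (α j) (hα j) (h0 j) W) g m (d + k * (W + 1)) 2 0 hm (by norm_num) (fun ζ => ζ)
    (fun B ζ x H => GdL α W d B ζ x H) (fun B₀ => ?_) (fun B ζ x H H' h1 h2 h3 hg => hg.mono h1 h2 h3)
  obtain ⟨B, H₀, hB⟩ := hgd α hα h0 W g d B₀
  exact ⟨B, fun T _ => ⟨H₀, fun ζ x H hH _ _ hg => hB ζ x H hH hg⟩⟩

end Pool.Agent.Q189.HL
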