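import Pool.Agent.Q189.HL.Sys

/-!
# Hyperlogarithms are linearly independent over the polynomials
-/

set_option autoImplicit false

open PowerSeries

namespace Pool.Agent.Q189.HL

open Pool.Agent.W924.LF (eul coeff_eul)
open Pool.Agent.Y119.ML

attribute [-instance] HahnSeries.powerSeriesAlgebra

variable {r : ℕ} (α : Fin r → ℤ)

/-- the coefficient of a letter -/
noncomputable def cl : Option (Fin r) → ℚ
  | none => 1
  | some a => -(1 / α a)

lemma cl_ne (h0 : ∀ a, α a ≠ 0) (o : Option (Fin r)) : cl α o ≠ 0 := by
  rcases o with _ | a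
  · exact one_ne_zero
  · rw [cl, neg_ne_zero]
    exact one_div_ne_zero (by exact_mod_cast h0 a)

lemma io_UU (h0 : ∀ a, α a ≠ 0) (o : Option (Fin r)) : io (UU α 0 o) = ((cl α o : ℚ) : FF) * uf (sft α o) := by
  rcases o with _ | a
  · rw [UU_none, map_one]
    show (1 : FF) = ((1 : ℚ) : FF) * uf 0
    rw [uf_zero]
    simp
  · show _ = ((-(1 / α a) : ℚ) : FF) * uf (α a)
    rw [uf_eq _ (h0 a)]
    have h1 : ((-(1 / α a) : ℚ) : FF) = io (PowerSeries.C (-(1 / α a) : ℚ)) := by
      rw [← eq_ratCast (io.comp (PowerSeries.C (R := ℚ)))]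
      rfl
    rw [h1, ← map_mul]
    congr 1
    show X * geo ((0 : ℕ) : ℤ) * geo (((0 : ℕ) : ℤ) + α a) = _
    have h5 : geo ((0 : ℕ) : ℤ) = 1 := geo_zero
    have h6 : geo (((0 : ℕ) : ℤ) + α a) = geo (α a) := by simp
    rw [h5, h6, mul_one]
    have h4 : PowerSeries.C (-(1 / α a) : ℚ) * ((α a : ℤ) : ℚ⟦X⟧) = -1 := by
      have : ((α a : ℤ) : ℚ⟦X⟧) = PowerSeries.C (α a : ℚ) := by simp
      have h7 : (-(1 / α a) : ℚ) * (α a : ℚ) = -1 := by
        have : (α a : ℚ) ≠ 0 := by exact_mod_cast h0 a
        field_simp
      rw [this, ← map_mul, h7, map_neg, map_one]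
    linear_combination (X * geo (α a)) * h4

lemma sft_inj (hα : Function.Injective α) (h0 : ∀ a, α a ≠ 0) : Function.Injective (sft α) := by
  rintro (_ | a) (_ | b) h
  · rfl
  · exact absurd h.symm (h0 b)
  · exact absurd h (h0 a)
  · exact congrArg some (hα h)

/-- **linear independence** -/
theorem li_LL (hα : Function.Injective α) (h0 : ∀ a, α a ≠ 0) (W : ℕ) :
    LinearIndependent (Polynomial ℚ) (fun w : WI r W => LL α 0 w.1) := by
  classical
  have main := graded_indep eul KF (fun x hx => eul_mem hx) (κ := Option (Fin r)) (B := WI r W)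
    (fun o => uf (sft α o)) (fun o => uf_mem _) (fun c g _ hc hg h => prim (sft α) (sft_inj α hα h0) c g hc hg h)
    (fun w => w.1.length) (fun w => io (LL α 0 w.1))
    (fun o w w' => if w.1 = o :: w'.1 then cl α o else 0)
    (fun o w w' h => by
      split_ifs at h with h1
      · simp only [h1, List.length_cons]
      · exact absurd rfl h)
    (fun w => by
      rw [eul_io]
      obtain ⟨w, hw⟩ := w
      cases w with
      | nil =>
        simp [LL]
      | cons o v =>
        have hv : v.length ≤ W ∧ v.getLast? ≠ some none := ⟨by have := hw.1; simp at this; omega, adm_tail hw.2⟩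
        rw [theta_LL α 0 hw.2, map_mul, io_UU α h0, Finset.sum_eq_single ⟨v, hv⟩, Finset.sum_eq_single o]
        · simp only [if_true]
        · intro o' _ ho
          simp only
          rw [if_neg (fun h => ho (List.cons.inj h).1.symm)]
          simp
        · intro h; exact absurd (Finset.mem_univ _) h
        · intro w' _ hw'
          rw [Finset.sum_eq_zero, zero_mul]
          intro o' _
          simp only
          rw [if_neg (fun h => hw' (Subtype.ext (List.cons.inj h).2.symm))]
          simp
        · intro h; exact absurd (Finset.mem_univ _) h)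
    (fun g hg hd hs w => by
      have hnil : (([] : List (Option (Fin r))).length ≤ W ∧ ([] : List (Option (Fin r))).getLast? ≠ some none) :=
        ⟨by simp, by simp⟩
      rw [Finset.sum_eq_single ⟨[], hnil⟩] at hs
      · by_cases hw : w.1.length = 0
        · have : w = ⟨[], hnil⟩ := Subtype.ext (List.length_eq_zero_iff.1 hw)
          rw [this]
          simpa [LL] using hs
        · exact hd w hw
      · intro w' _ hw'
        rw [hd w' (fun h => hw' (Subtype.ext (List.length_eq_zero_iff.1 h))), zero_mul]
      · intro h; exact absurd (Finset.mem_univ _) h)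
    (fun m l hl hD hdeg hsum w => by
      by_cases hw : w.1.length = m + 1
      · obtain ⟨w, hw'⟩ := w
        cases w with
        | nil => simp at hw
        | cons o v =>
          have hv : v.length ≤ W ∧ v.getLast? ≠ some none := ⟨by have := hw'.1; simp at this; omega, adm_tail hw'.2⟩
          have h1 := hsum o ⟨v, hv⟩
          rw [Finset.sum_eq_single ⟨o :: v, hw'⟩] at h1
          · simp only [if_true] at h1
            exact (mul_eq_zero.1 h1).resolve_left (Rat.cast_ne_zero.2 (cl_ne α h0 o))
          · intro w'' _ hne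
            simp only
            rw [if_neg (fun h => hne (Subtype.ext h))]
            simp
          · intro h; exact absurd (Finset.mem_univ _) h
      · exact hdeg w hw)
  rw [Fintype.linearIndependent_iff]
  intro p hp b
  have h1 := main (fun b => pio (p b)) (fun b => pio_mem _) (by
    have h2 := congrArg io hp
    rw [map_sum, map_zero] at h2
    rw [← h2]
    refine Finset.sum_congr rfl fun b _ => ?_
    rw [Pool.Agent.Y141.GF.smul_eq', map_mul]
    rfl) b
  exact pio_inj (by rw [h1, map_zero])

end Pool.Agent.Q189.HL
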