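import Pool.Agent.Q189.HL.LI

/-!
# Hyperlogarithms: the shuffle relations and the derivations
-/

set_option autoImplicit false

open PowerSeries

namespace Pool.Agent.Q189.HL

open Pool.Agent.Y119.ML (LL UU In geo adm adm_tail adm_none const_LL theta_LL theta_In const_In WI)

variable {r : ℕ} (α : Fin r → ℤ)

/-- the shuffles of two words -/
def sh {L : Type} : List L → List L → List (List L)
  | [], v => [v]
  | a :: u, [] => [a :: u]
  | a :: u, b :: v => (sh u (b :: v)).map (fun w => a :: w) ++ (sh (a :: u) v).map (fun w => b :: w)
  termination_by u v => u.length + v.length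

lemma sh_nil {L : Type} (v : List L) : sh [] v = [v] := by rw [sh]

lemma sh_cons_nil {L : Type} (a : L) (u : List L) : sh (a :: u) [] = [a :: u] := by rw [sh]

lemma sh_cons {L : Type} (a b : L) (u v : List L) : sh (a :: u) (b :: v) =
    (sh u (b :: v)).map (fun w => a :: w) ++ (sh (a :: u) v).map (fun w => b :: w) := by rw [sh]

lemma length_sh {L : Type} (n : ℕ) : ∀ u v : List L, u.length + v.length = n → ∀ w ∈ sh u v, w.length = n := by
  induction n with
  | zero =>
    intro u v h w hw
    have hu : u = [] := List.length_eq_zero_iff.1 (by omega)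
    have hv : v = [] := List.length_eq_zero_iff.1 (by omega)
    subst hu
    subst hv
    rw [sh_nil, List.mem_singleton] at hw
    rw [hw]; rfl
  | succ n ih =>
    intro u v h w hw
    rcases u with _ | ⟨a, u⟩
    · rw [sh_nil, List.mem_singleton] at hw
      rw [hw]
      simpa using h
    · rcases v with _ | ⟨b, v⟩
      · rw [sh_cons_nil, List.mem_singleton] at hw
        rw [hw]
        simpa using h
      · rw [sh_cons, List.mem_append, List.mem_map, List.mem_map] at hw
        simp only [List.length_cons] at h
        rcases hw with ⟨w', hw', rfl⟩ | ⟨w', hw', rfl⟩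
        · have := ih u (b :: v) (by simp only [List.length_cons]; omega) w' hw'
          simp only [List.length_cons]
          omega
        · have := ih (a :: u) v (by simp only [List.length_cons]; omega) w' hw'
          simp only [List.length_cons]
          omega

lemma adm_cons {o : Option (Fin r)} {w : List (Option (Fin r))} (hw : adm w) (h : w ≠ []) : adm (o :: w) := by
  unfold adm at *
  cases w with
  | nil => exact absurd rfl h
  | cons a w => simpa using hw

lemma adm_sh (n : ℕ) : ∀ u v : List (Option (Fin r)), u.length + v.length = n → adm u → adm v →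
    ∀ w ∈ sh u v, adm w := by
  induction n with
  | zero =>
    intro u v h hu hv w hw
    have hu : u = [] := List.length_eq_zero_iff.1 (by omega)
    subst hu
    rw [sh_nil, List.mem_singleton] at hw
    rwa [hw]
  | succ n ih =>
    intro u v h hu hv w hw
    rcases u with _ | ⟨a, u⟩
    · rw [sh_nil, List.mem_singleton] at hw
      rwa [hw]
    · rcases v with _ | ⟨b, v⟩
      · rw [sh_cons_nil, List.mem_singleton] at hw
        rwa [hw]
      · rw [sh_cons, List.mem_append, List.mem_map, List.mem_map] at hw
        simp only [List.length_cons] at h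
        rcases hw with ⟨w', hw', rfl⟩ | ⟨w', hw', rfl⟩
        · refine adm_cons (ih u (b :: v) (by simp only [List.length_cons]; omega) (adm_tail hu) hv w' hw') ?_
          intro h0
          have := length_sh _ u (b :: v) rfl w' hw'
          rw [h0] at this
          simp at this
        · refine adm_cons (ih (a :: u) v (by simp only [List.length_cons]; omega) hu (adm_tail hv) w' hw') ?_
          intro h0
          have := length_sh _ (a :: u) v rfl w' hw'
          rw [h0] at this
          simp only [List.length_nil, List.length_cons] at this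
          omega

lemma eq_of_theta {f g : ℚ⟦X⟧} (h : X * d⁄dX ℚ f = X * d⁄dX ℚ g) (h0 : constantCoeff f = constantCoeff g) : f = g := by
  ext m
  rcases m with _ | m
  · simpa using h0
  · have h1 := congrArg (coeff (m + 1)) h
    rw [mul_comm X, mul_comm X, coeff_succ_mul_X, coeff_succ_mul_X, coeff_derivative, coeff_derivative] at h1
    have : ((m : ℚ) + 1) ≠ 0 := by positivity
    exact mul_right_cancel₀ this h1

lemma sum_map_mul_left' {R β : Type} [CommRing R] (c : R) (l : List β) (f : β → R) :
    (l.map fun b => c * f b).sum = c * (l.map f).sum := List.sum_map_mul_left l f c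

/-- **shuffle relations** -/
theorem LL_mul (n : ℕ) : ∀ u v : List (Option (Fin r)), u.length + v.length = n → adm u → adm v →
    LL α 0 u * LL α 0 v = ((sh u v).map (LL α 0)).sum := by
  induction n with
  | zero =>
    intro u v h hu hv
    have hu : u = [] := List.length_eq_zero_iff.1 (by omega)
    subst hu
    rw [sh_nil]
    simp [LL]
  | succ n ih =>
    intro u v h hu hv
    rcases u with _ | ⟨a, u⟩
    · rw [sh_nil]
      simp [LL]
    · rcases v with _ | ⟨b, v⟩
      · rw [sh_cons_nil]
        simp [LL]
      · simp only [List.length_cons] at h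
        have e1 := ih u (b :: v) (by simp only [List.length_cons]; omega) (adm_tail hu) hv
        have e2 := ih (a :: u) v (by simp only [List.length_cons]; omega) hu (adm_tail hv)
        have key : ∀ (o : Option (Fin r)) (l : List (List (Option (Fin r)))), (∀ w ∈ l, adm (o :: w)) →
            X * d⁄dX ℚ ((l.map fun w => LL α 0 (o :: w)).sum) = UU α 0 o * (l.map (LL α 0)).sum := by
          intro o l hl
          induction l with
          | nil => simp
          | cons w l ih' =>
            rw [List.map_cons, List.sum_cons, List.map_cons, List.sum_cons, map_add, mul_add, mul_add,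
              ih' fun w' hw' => hl w' (List.mem_cons_of_mem _ hw'), theta_LL α 0 (hl w List.mem_cons_self)]
        have key0 : ∀ (o : Option (Fin r)) (l : List (List (Option (Fin r)))),
            constantCoeff ((l.map fun w => LL α 0 (o :: w)).sum) = 0 := by
          intro o l
          induction l with
          | nil => simp
          | cons w l ih' =>
            rw [List.map_cons, List.sum_cons, map_add, ih', const_LL α 0 (by simp), add_zero]
        have hne : ∀ (u v : List (Option (Fin r))), u ≠ [] ∨ v ≠ [] → adm u → adm v → ∀ o, ∀ w ∈ sh u v, adm (o :: w) := by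
          intro u v huv hu hv o w hw
          refine adm_cons (adm_sh _ u v rfl hu hv w hw) ?_
          intro h0
          have := length_sh _ u v rfl w hw
          rw [h0] at this
          simp only [List.length_nil] at this
          rcases huv with h1 | h1
          · exact h1 (List.length_eq_zero_iff.1 (by omega))
          · exact h1 (List.length_eq_zero_iff.1 (by omega))
        rw [sh_cons, List.map_append, List.sum_append, List.map_map, List.map_map]
        refine eq_of_theta ?_ ?_
        · rw [Derivation.leibniz, smul_eq_mul, smul_eq_mul, map_add]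
          have k1 := key a (sh u (b :: v)) (hne _ _ (Or.inr (by simp)) (adm_tail hu) hv a)
          have k2 := key b (sh (a :: u) v) (hne _ _ (Or.inl (by simp)) hu (adm_tail hv) b)
          rw [← e1] at k1
          rw [← e2] at k2
          have t1 := theta_LL α 0 hu
          have t2 := theta_LL α 0 hv
          show _ = X * (d⁄dX ℚ ((List.map (fun w => LL α 0 (a :: w)) (sh u (b :: v))).sum) +
            d⁄dX ℚ ((List.map (fun w => LL α 0 (b :: w)) (sh (a :: u) v)).sum))
          linear_combination (LL α 0 (b :: v)) * t1 + (LL α 0 (a :: u)) * t2 - k1 - k2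
        · rw [map_mul, const_LL α 0 (by simp), zero_mul, map_add]
          show _ = constantCoeff ((List.map (fun w => LL α 0 (a :: w)) (sh u (b :: v))).sum) +
            constantCoeff ((List.map (fun w => LL α 0 (b :: w)) (sh (a :: u) v)).sum)
          rw [key0, key0, add_zero]

/-! ### the algebra of the hyperlogarithms -/

/-- the admissible words -/
abbrev Aw (r : ℕ) : Type := {w : List (Option (Fin r)) // adm w}

/-- linear combinations -/
noncomputable def Ph : (Aw r →₀ Polynomial ℚ) →ₗ[Polynomial ℚ] ℚ⟦X⟧ :=
  Finsupp.linearCombination (Polynomial ℚ) fun w : Aw r => LL α 0 w.1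

theorem li_all (hα : Function.Injective α) (h0 : ∀ a, α a ≠ 0) :
    LinearIndependent (Polynomial ℚ) (fun w : Aw r => LL α 0 w.1) := by
  classical
  rw [linearIndependent_iff_finset_linearIndependent]
  intro s
  set W := s.sup fun w => w.1.length with hW
  have h1 := li_LL α hα h0 W
  exact h1.comp (fun w : s => (⟨w.1.1, Finset.le_sup (f := fun w : Aw r => w.1.length) w.2, w.1.2⟩ : WI r W))
    fun a b hab => Subtype.ext (Subtype.ext (congrArg (fun x : WI r W => x.1) hab))

lemma Ph_inj (hα : Function.Injective α) (h0 : ∀ a, α a ≠ 0) : Function.Injective (Ph α) := li_all α hα h0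

lemma Ph_single (w : Aw r) (p : Polynomial ℚ) : Ph α (Finsupp.single w p) = p • LL α 0 w.1 :=
  Finsupp.linearCombination_single _ _ _

lemma LL_mem (w : List (Option (Fin r))) (hw : adm w) : LL α 0 w ∈ LinearMap.range (Ph α) :=
  ⟨Finsupp.single ⟨w, hw⟩ 1, by rw [Ph_single, one_smul]⟩

lemma nil_adm : adm ([] : List (Option (Fin r))) := by
  unfold adm
  simp

/-- the algebra -/
noncomputable def Sa : Subalgebra (Polynomial ℚ) ℚ⟦X⟧ where
  carrier := LinearMap.range (Ph α)
  mul_mem' := by
    rintro a b ⟨c, rfl⟩ ⟨d, rfl⟩
    induction c using Finsupp.induction_linear with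
    | zero => rw [map_zero, zero_mul]; exact Submodule.zero_mem _
    | add c c' h h' => rw [map_add, add_mul]; exact Submodule.add_mem _ h h'
    | single u p =>
      induction d using Finsupp.induction_linear with
      | zero => rw [map_zero, mul_zero]; exact Submodule.zero_mem _
      | add c c' h h' => rw [map_add, mul_add]; exact Submodule.add_mem _ h h'
      | single v q =>
        rw [Ph_single, Ph_single, smul_mul_smul_comm]
        refine Submodule.smul_mem _ _ ?_
        rw [LL_mul α _ u.1 v.1 rfl u.2 v.2]
        refine list_sum_mem ?_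
        intro x hx
        rw [List.mem_map] at hx
        obtain ⟨w, hw, rfl⟩ := hx
        exact LL_mem α w (adm_sh _ u.1 v.1 rfl u.2 v.2 w hw)
  add_mem' := fun ha hb => Submodule.add_mem _ ha hb
  algebraMap_mem' := fun p => ⟨Finsupp.single ⟨[], nil_adm⟩ p, by
    rw [Ph_single]
    show p • (1 : ℚ⟦X⟧) = _
    rw [Algebra.algebraMap_eq_smul_one]⟩

lemma mem_Sa {f : ℚ⟦X⟧} : f ∈ Sa α ↔ f ∈ LinearMap.range (Ph α) := Iff.rfl

/-- the basis -/
noncomputable def eS (hα : Function.Injective α) (h0 : ∀ a, α a ≠ 0) : (Aw r →₀ Polynomial ℚ) ≃ₗ[Polynomial ℚ] Sa α :=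
  LinearEquiv.ofBijective ((Ph α).codRestrict (Subalgebra.toSubmodule (Sa α)) fun c => ⟨c, rfl⟩)
    ⟨fun a b hab => Ph_inj α hα h0 (congrArg Subtype.val hab), fun x => by
      obtain ⟨c, hc⟩ := x.2
      exact ⟨c, Subtype.ext hc⟩⟩

lemma coe_eS (hα : Function.Injective α) (h0 : ∀ a, α a ≠ 0) (c : Aw r →₀ Polynomial ℚ) :
    ((eS α hα h0 c : Sa α) : ℚ⟦X⟧) = Ph α c := rfl

end Pool.Agent.Q189.HL
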