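import Pool.Agent.Q189.HL.Base
import Pool.Agent.Q246.AF.FamN

/-!
# Hyperlogarithms: the hypotheses of the machine
-/

set_option autoImplicit false

open PowerSeries

namespace Pool.Agent.Q189.HL

open Pool.Agent.Y113 (ps ps_mul SDc SDp GSys)
open Pool.Agent.Y119.ML (LL UU In geo geo_mul theta_In RR adm const_In theta_LL wds mem_wds)

section graded
variable {R : Type} [CommRing R] {n : ℕ}

lemma pow_deg (dg : Fin n → ℕ) (M : Matrix (Fin n) (Fin n) R) (hM : ∀ i j, M i j ≠ 0 → dg j + 1 ≤ dg i) (k : ℕ) :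
    ∀ i j, (M ^ k) i j ≠ 0 → dg j + k ≤ dg i := by
  induction k with
  | zero =>
    intro i j h
    rw [pow_zero, Matrix.one_apply] at h
    split_ifs at h with h1
    · rw [h1]; simp
    · exact absurd rfl h
  | succ k ih =>
    intro i j h
    rw [pow_succ, Matrix.mul_apply] at h
    obtain ⟨l, -, hl⟩ := Finset.exists_ne_zero_of_sum_ne_zero h
    have h1 := ih i l (left_ne_zero_of_mul hl)
    have h2 := hM l j (right_ne_zero_of_mul hl)
    omega

lemma pow_zero_of (dg : Fin n → ℕ) (M : Matrix (Fin n) (Fin n) R) (hM : ∀ i j, M i j ≠ 0 → dg j + 1 ≤ dg i) {k : ℕ}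
    (hk : ∀ i, dg i < k) : M ^ k = 0 := by
  ext i j
  by_contra h
  have h1 := pow_deg dg M hM k i j h
  have h2 := hk i
  omega

end graded

/-- the words of length at most `W` -/
abbrev Wd (r W : ℕ) : Type := {w : List (Option (Fin r)) // w.length ≤ W}

instance (r W : ℕ) : Fintype (Wd r W) := Fintype.subtype (wds r W) fun w => mem_wds W w

/-- the number of words -/
def nn (r W : ℕ) : ℕ := Fintype.card (Wd r W)

/-- a numbering of the words -/
noncomputable def ew (r W : ℕ) : Fin (nn r W) ≃ Wd r W := (Fintype.equivFin (Wd r W)).symm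

lemma le_nn (r W : ℕ) : W + 1 ≤ nn r W := by
  have h1 : Fintype.card (Fin (W + 1)) ≤ Fintype.card (Wd r W) := by
    refine Fintype.card_le_of_injective (fun k => ⟨List.replicate k none, by simp; omega⟩) fun a b h => ?_
    have := congrArg (fun w : Wd r W => w.1.length) h
    simp only [List.length_replicate] at this
    exact Fin.ext this
  rwa [Fintype.card_fin] at h1

variable {r : ℕ} (α : Fin r → ℤ)

/-- the holomorphic part of the fundamental matrix -/
noncomputable def HM (W : ℕ) : Matrix (Fin (nn r W)) (Fin (nn r W)) ℚ⟦X⟧ :=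
  Matrix.of fun i j => Hm α (ew r W i).1 (ew r W j).1

/-- the residue -/
noncomputable def NM (r W : ℕ) : Matrix (Fin (nn r W)) (Fin (nn r W)) ℚ :=
  Matrix.of fun i j => if (ew r W i).1 = none :: (ew r W j).1 then 1 else 0

/-- the residue -/
noncomputable def NZ (r W : ℕ) (i j : Fin (nn r W)) : ℤ := if (ew r W i).1 = none :: (ew r W j).1 then 1 else 0

/-- the matrix of the system -/
noncomputable def AM (W : ℕ) (i k : Fin (nn r W)) : Polynomial ℤ :=
  ∑ o : Option (Fin r), if (ew r W i).1 = o :: (ew r W k).1 then RR α 0 o else 0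

lemma sum_ew {M : Type} [AddCommMonoid M] {W : ℕ} (v : List (Option (Fin r))) (φ : List (Option (Fin r)) → M)
    (hφ : W < v.length → φ v = 0) : ∑ k : Fin (nn r W), (if (ew r W k).1 = v then φ (ew r W k).1 else 0) = φ v := by
  by_cases hv : v.length ≤ W
  · rw [Finset.sum_eq_single ((ew r W).symm ⟨v, hv⟩)]
    · rw [Equiv.apply_symm_apply, if_pos rfl]
    · intro k _ hk
      rw [if_neg]
      intro h
      apply hk
      rw [Equiv.eq_symm_apply]
      exact Subtype.ext h
    · intro h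
      exact absurd (Finset.mem_univ _) h
  · rw [hφ (by omega)]
    refine Finset.sum_eq_zero fun k _ => if_neg ?_
    intro h
    apply hv
    rw [← h]
    exact (ew r W k).2

lemma NM_pow (W : ℕ) : NM r W ^ nn r W = 0 := by
  refine pow_zero_of (fun i => (ew r W i).1.length) _ (fun i j h => ?_) fun i => ?_
  · unfold NM at h
    rw [Matrix.of_apply] at h
    split_ifs at h with h1
    · rw [h1]; simp
    · exact absurd rfl h
  · have h1 := (ew r W i).2
    have h2 := le_nn r W
    omega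

lemma ps_sum' {σ : Type} (s : Finset σ) (f : σ → Polynomial ℤ) : ps (∑ i ∈ s, f i) = ∑ i ∈ s, ps (f i) := by
  unfold Pool.Agent.Y113.ps
  rw [Polynomial.map_sum]
  exact map_sum (Polynomial.coeToPowerSeries.ringHom (R := ℚ)) _ _

lemma T1_ne : RR α 0 none ≠ 0 := by
  intro h0
  have := congrArg (Polynomial.eval 0) h0
  simp [RR, Polynomial.eval_prod] at this

lemma HM_zero (W : ℕ) (i j : Fin (nn r W)) : coeff 0 (HM α W i j) = if i = j then 1 else 0 := by
  unfold HM Hm
  rw [Matrix.of_apply]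
  by_cases h1 : (ew r W j).1 <:+ (ew r W i).1
  · rw [if_pos h1]
    by_cases h2 : i = j
    · subst h2
      rw [if_pos rfl]
      simp [hu_nil]
    · rw [if_neg h2, coeff_zero_eq_constantCoeff_apply]
      refine const_hu α fun h3 => h2 ?_
      have h4 : (ew r W i).1.length ≤ (ew r W j).1.length := by
        by_contra hcon
        have h5 : ((ew r W i).1.take ((ew r W i).1.length - (ew r W j).1.length)).length = 0 := by rw [h3]; rfl
        rw [List.length_take] at h5
        omega
      exact (ew r W).injective (Subtype.ext (h1.eq_of_length_le h4).symm)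
  · rw [if_neg h1]
    by_cases h2 : i = j
    · subst h2
      exact absurd List.suffix_rfl h1
    · rw [if_neg h2]
      simp

theorem ode_HM (W : ℕ) (i j : Fin (nn r W)) : ps (RR α 0 none) * (X * d⁄dX ℚ (HM α W i j) +
    ∑ k, HM α W i k * C (NM r W k j)) = ∑ k, ps (AM α W i k) * HM α W k j := by
  have h1 : ∑ k, HM α W i k * C (NM r W k j) = Hm α (ew r W i).1 (none :: (ew r W j).1) := by
    have h2 := sum_ew (r := r) (W := W) (none :: (ew r W j).1) (fun v => Hm α (ew r W i).1 v) (fun h =>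
      Hm_long α (lt_of_le_of_lt (ew r W i).2 h))
    rw [← h2]
    refine Finset.sum_congr rfl fun k _ => ?_
    unfold HM NM
    rw [Matrix.of_apply, Matrix.of_apply]
    split_ifs <;> simp
  have h3 : ∑ k, ps (AM α W i k) * HM α W k j = ∑ o : Option (Fin r), ∑ k,
      if (ew r W i).1 = o :: (ew r W k).1 then ps (RR α 0 o) * Hm α (ew r W k).1 (ew r W j).1 else 0 := by
    rw [Finset.sum_comm]
    refine Finset.sum_congr rfl fun k _ => ?_
    unfold AM HM
    rw [Matrix.of_apply, ps_sum', Finset.sum_mul]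
    refine Finset.sum_congr rfl fun o _ => ?_
    split_ifs
    · rfl
    · rw [Pool.Agent.Y113.ps_zero, zero_mul]
  rw [h1, h3]
  show ps (RR α 0 none) * (X * d⁄dX ℚ (Hm α (ew r W i).1 (ew r W j).1) + _) = _
  rw [theta_Hm]
  have hW := (ew r W i).2
  generalize (ew r W i).1 = w at hW
  generalize (ew r W j).1 = v
  cases w with
  | nil =>
    simp
  | cons o w' =>
    simp only
    rw [← mul_assoc, ps_UU, Finset.sum_eq_single o]
    · have h4 := sum_ew (r := r) (W := W) w' (fun u => ps (RR α 0 o) * Hm α u v) (fun h => by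
        simp only [List.length_cons] at hW
        omega)
      rw [← h4]
      refine Finset.sum_congr rfl fun k _ => ?_
      by_cases h5 : (ew r W k).1 = w'
      · rw [if_pos h5, if_pos (by rw [h5])]
      · rw [if_neg h5, if_neg (fun h => h5 (List.cons.inj h).2.symm)]
    · intro o' _ ho
      refine Finset.sum_eq_zero fun k _ => if_neg ?_
      intro h
      exact ho (List.cons.inj h).1.symm
    · intro h
      exact absurd (Finset.mem_univ _) h

/-- the inverse matrix -/
noncomputable def WM (W : ℕ) : Matrix (Fin (nn r W)) (Fin (nn r W)) ℚ⟦X⟧ :=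
  ∑ k ∈ Finset.range (nn r W), (1 - HM α W) ^ k

lemma HM_mul_WM (W : ℕ) : HM α W * WM α W = 1 := by
  have h1 : (1 - HM α W) ^ nn r W = 0 := by
    refine pow_zero_of (fun i => (ew r W i).1.length) _ (fun i j h => ?_) fun i => ?_
    · rw [Matrix.sub_apply, Matrix.one_apply] at h
      by_contra hcon
      apply h
      by_cases h2 : i = j
      · subst h2
        rw [if_pos rfl]
        have : HM α W i i = 1 := by
          have h3 := Hm_append α [] (ew r W i).1
          rw [List.nil_append] at h3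
          exact h3
        rw [this, sub_self]
      · rw [if_neg h2, zero_sub, neg_eq_zero]
        refine Hm_not α fun h3 => h2 ?_
        exact (ew r W).injective (Subtype.ext (h3.eq_of_length_le (by omega)).symm)
    · have h1 := (ew r W i).2
      have h2 := le_nn r W
      omega
  have h2 := mul_neg_geom_sum (1 - HM α W) (nn r W)
  rw [h1, sub_zero, sub_sub_cancel] at h2
  exact h2

lemma SDc_one_mat {n : ℕ} (i j : Fin n) : SDc ((1 : Matrix (Fin n) (Fin n) ℚ⟦X⟧) i j) := by
  rw [Matrix.one_apply]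
  split_ifs
  · exact SDc.one
  · exact SDc_zero

lemma SDc_WM (W : ℕ) (i j : Fin (nn r W)) : SDc (WM α W i j) := by
  unfold WM
  rw [Matrix.sum_apply]
  refine Pool.Agent.Y119.HZ.SDc.sum' _ fun k hk => ?_
  clear hk
  have h1 : ∀ i j, SDc ((1 - HM α W) i j) := fun i j => by
    rw [Matrix.sub_apply]
    exact SDc_sub (SDc_one_mat i j) (SDc_Hm α _ _)
  induction k generalizing i j with
  | zero =>
    rw [pow_zero]
    exact SDc_one_mat i j
  | succ k ih =>
    rw [pow_succ]
    exact Pool.Agent.Y119.HZ.SDc_matmul (fun i j => ih i j) h1 i j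

/-- the numbering of the entries -/
def ix (n : ℕ) : Fin (n * n) ≃ Fin n × Fin n := Pool.Agent.Y119.HZ.ix n

/-- the family of the entries -/
noncomputable def hl (W : ℕ) (a : Fin (nn r W * nn r W)) : ℚ⟦X⟧ := HM α W (Pool.Agent.Y119.HZ.ix _ a).1 (Pool.Agent.Y119.HZ.ix _ a).2

theorem size_hl (W : ℕ) : ∃ C : ℝ, 1 ≤ C ∧ ∀ i m, |((coeff m (hl α W i) : ℚ) : ℝ)| ≤ C ^ (m + 1) := by
  obtain ⟨C, hC, hs, -⟩ := Pool.Agent.Y119.HY.SDc.unif (y := fun p : Fin (nn r W) × Fin (nn r W) => HM α W p.1 p.2)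
    fun p => SDc_Hm α _ _
  exact ⟨C, hC, fun i m => hs _ m⟩

theorem gfs_hl (W : ℕ) : ∃ (T : Polynomial ℤ) (A : Fin (nn r W * nn r W) → Fin (nn r W * nn r W) → Polynomial ℤ),
    Pool.Agent.Y916.Af.GFs T A (hl α W) := by
  have hNz : ∀ i j, (NZ r W i j : ℚ) = NM r W i j := by
    intro i j
    unfold NZ NM
    rw [Matrix.of_apply]
    split_ifs <;> simp
  have hH : ∀ i j, SDc (HM α W i j) := fun i j => SDc_Hm α _ _
  obtain ⟨q, C, hG⟩ := Pool.Agent.Y119.HZ.gsysL (NM_pow W) (HM_mul_WM α W) (ode_HM α W) hH (SDc_WM α W)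
  have hG' := hG.reindex (Pool.Agent.Y119.HZ.ix _)
  refine ⟨Polynomial.X * RR α 0 none, fun a c => Pool.Agent.Y119.HZ.A3 (RR α 0 none) (AM α W) (NZ r W)
    (Pool.Agent.Y119.HZ.ix _ a) (Pool.Agent.Y119.HZ.ix _ c), mul_ne_zero Polynomial.X_ne_zero (T1_ne α),
    fun i => ?_, ?_, ⟨q, C, hG'⟩, Pool.Agent.Y119.HZ.qu_gen (NM_pow W) hNz (HM_zero α W) (ode_HM α W) hH⟩
  · have h1 := Pool.Agent.Y119.HZ.ode_A3 hNz (ode_HM α W) (Pool.Agent.Y119.HZ.ix _ i)
    have h2 : ∑ j : Fin (nn r W * nn r W), ps (Pool.Agent.Y119.HZ.A3 (RR α 0 none) (AM α W) (NZ r W)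
        (Pool.Agent.Y119.HZ.ix _ i) (Pool.Agent.Y119.HZ.ix _ j)) * hl α W j =
        ∑ q, ps (Pool.Agent.Y119.HZ.A3 (RR α 0 none) (AM α W) (NZ r W) (Pool.Agent.Y119.HZ.ix _ i) q) *
          HM α W q.1 q.2 :=
      Equiv.sum_comp (Pool.Agent.Y119.HZ.ix _) fun q => ps (Pool.Agent.Y119.HZ.A3 (RR α 0 none) (AM α W) (NZ r W)
        (Pool.Agent.Y119.HZ.ix _ i) q) * HM α W q.1 q.2
    exact h1.trans h2.symm
  · obtain ⟨C, -, h⟩ := size_hl α W
    exact ⟨C, h⟩

theorem fam_hl (W : ℕ) : Pool.Agent.Q246.AF.FAMN (hl α W) := by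
  obtain ⟨T, A, h⟩ := gfs_hl α W
  exact Pool.Agent.Q246.AF.t_famN h

end Pool.Agent.Q189.HL
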